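import Pool.Agent.R235.BD.Ex

set_option autoImplicit false

open MeasureTheory Filter Topology Set Polynomial
open scoped ComplexConjugate

namespace Pool.Agent.R235.BD

/-- lifted angle along a word, started at `ψ`, for the parameter `q = exp(iθ)` -/
noncomputable def Th (ψ θ : ℝ) : List Ltr → ℝ
  | [] => ψ
  | .a :: L => Th ψ θ L + θ
  | .ai :: L => Th ψ θ L - θ
  | .b :: L => Th ψ θ L +
      Complex.arg (5/4 + 3/4 * Complex.exp (-(2 * (Th ψ θ L : ℂ) * Complex.I)))
  | .bi :: L => Th ψ θ L +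
      Complex.arg (5/4 + (-(3/4)) * Complex.exp (-(2 * (Th ψ θ L : ℂ) * Complex.I)))

lemma norm_exp_neg (t : ℝ) : ‖Complex.exp (-(2 * (t : ℂ) * Complex.I))‖ = 1 := by
  have : -(2 * (t : ℂ) * Complex.I) = ((-(2 * t) : ℝ) : ℂ) * Complex.I := by push_cast; ring
  rw [this]; exact Complex.norm_exp_ofReal_mul_I _

lemma re_pos_aux (ε : ℂ) (hε : ‖ε‖ = 3/4) (t : ℝ) :
    0 < (5/4 + ε * Complex.exp (-(2 * (t : ℂ) * Complex.I))).re := by
  have h1 : ‖ε * Complex.exp (-(2 * (t : ℂ) * Complex.I))‖ = 3/4 := by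
    rw [norm_mul, norm_exp_neg, hε, mul_one]
  have h2 := (abs_le.mp (Complex.abs_re_le_norm (ε * Complex.exp (-(2 * (t : ℂ) * Complex.I))))).1
  rw [h1] at h2
  rw [Complex.add_re]
  have : ((5 / 4 : ℂ)).re = 5/4 := by norm_num
  rw [this]; linarith

lemma continuous_arg_aux (ε : ℂ) (hε : ‖ε‖ = 3/4) :
    Continuous fun t : ℝ => Complex.arg (5/4 + ε * Complex.exp (-(2 * (t : ℂ) * Complex.I))) := by
  rw [continuous_iff_continuousAt]
  intro t
  have h1 : ContinuousAt (fun t : ℝ => (5/4 + ε * Complex.exp (-(2 * (t : ℂ) * Complex.I)))) t := by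
    fun_prop
  exact ContinuousAt.comp (f := fun t : ℝ => (5/4 + ε * Complex.exp (-(2 * (t : ℂ) * Complex.I))))
    (Complex.continuousAt_arg (Or.inl (re_pos_aux ε hε t))) h1

lemma abs_arg_aux (ε : ℂ) (hε : ‖ε‖ = 3/4) (t : ℝ) :
    |Complex.arg (5/4 + ε * Complex.exp (-(2 * (t : ℂ) * Complex.I)))| < Real.pi / 2 :=
  Complex.abs_arg_lt_pi_div_two_iff.mpr (Or.inl (re_pos_aux ε hε t))

lemma conj54 : conj (5/4 : ℂ) = 5/4 := by
  have : (5/4 : ℂ) = ((5/4 : ℝ) : ℂ) := by push_cast; ring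
  rw [this]; exact Complex.conj_ofReal _
lemma conj34 : conj (3/4 : ℂ) = 3/4 := by
  have : (3/4 : ℂ) = ((3/4 : ℝ) : ℂ) := by push_cast; ring
  rw [this]; exact Complex.conj_ofReal _
lemma e34 : ‖(3/4 : ℂ)‖ = 3/4 := by norm_num
lemma e34' : ‖(-(3/4) : ℂ)‖ = 3/4 := by norm_num

lemma continuous_Th (ψ : ℝ) (L : List Ltr) : Continuous fun θ => Th ψ θ L := by
  induction L with
  | nil => simp only [Th]; fun_prop
  | cons x L ih =>
    cases x
    · simp only [Th]; fun_prop
    · simp only [Th]; fun_prop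
    · simp only [Th]
      exact ih.add ((continuous_arg_aux (3/4) e34).comp ih)
    · simp only [Th]
      exact ih.add ((continuous_arg_aux (-(3/4)) e34').comp ih)

/-- weights for the displacement difference -/
noncomputable def dd : Ltr → ℝ
  | .a => 1
  | .ai => -1
  | .b => -Real.pi
  | .bi => -Real.pi

lemma Th_diff (ψ : ℝ) (L : List Ltr) {θ₁ θ₂ : ℝ} (h : θ₂ - θ₁ = 1) :
    (L.map dd).sum ≤ Th ψ θ₂ L - Th ψ θ₁ L := by
  induction L with
  | nil => simp [Th]
  | cons x L ih =>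
    rw [List.map_cons, List.sum_cons]
    cases x
    · simp only [Th, dd]; linarith
    · simp only [Th, dd]; linarith
    · simp only [Th, dd]
      have h1 := abs_lt.mp (abs_arg_aux (3/4) e34 (Th ψ θ₁ L))
      have h2 := abs_lt.mp (abs_arg_aux (3/4) e34 (Th ψ θ₂ L))
      linarith [h1.2, h2.1]
    · simp only [Th, dd]
      have h1 := abs_lt.mp (abs_arg_aux (-(3/4)) e34' (Th ψ θ₁ L))
      have h2 := abs_lt.mp (abs_arg_aux (-(3/4)) e34' (Th ψ θ₂ L))
      linarith [h1.2, h2.1]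

/-- `SU(1,1)` structure on the unit circle and the polar form of the moving vector -/
lemma rep_circle (ψ θ : ℝ) (L : List Ltr) {q : ℂ} (hq : q = Complex.exp ((θ : ℂ) * Complex.I)) :
    (rep q (ev L)).1 1 1 = conj ((rep q (ev L)).1 0 0) ∧
    (rep q (ev L)).1 1 0 = conj ((rep q (ev L)).1 0 1) ∧
    ∃ r : ℝ, 0 < r ∧ (rep q (ev L)).1 0 0 * Complex.exp ((ψ : ℂ) * Complex.I) +
      (rep q (ev L)).1 0 1 * Complex.exp (-((ψ : ℂ) * Complex.I)) =
      r * Complex.exp ((Th ψ θ L : ℂ) * Complex.I) := by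
  have hq0 : q ≠ 0 := by rw [hq]; exact Complex.exp_ne_zero _
  have hqc : conj q = q⁻¹ := by
    rw [hq, ← Complex.exp_conj, ← Complex.exp_neg]
    congr 1
    simp
  have hqc' : conj (q⁻¹) = q := by rw [← hqc]; simp
  induction L with
  | nil =>
    refine ⟨by simp [ev_nil], by simp [ev_nil], 1, one_pos, ?_⟩
    simp [ev_nil, Th]
  | cons x L ih =>
    obtain ⟨h11, h10, r, hr, hX⟩ := ih
    have key : ∀ (α β : ℂ), (rep q (x.val)).1 = !![α, β; conj β, conj α] →
        (rep q (ev (x :: L))).1 1 1 = conj ((rep q (ev (x :: L))).1 0 0) ∧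
        (rep q (ev (x :: L))).1 1 0 = conj ((rep q (ev (x :: L))).1 0 1) ∧
        (rep q (ev (x :: L))).1 0 0 * Complex.exp ((ψ : ℂ) * Complex.I) +
        (rep q (ev (x :: L))).1 0 1 * Complex.exp (-((ψ : ℂ) * Complex.I)) =
        α * (r * Complex.exp ((Th ψ θ L : ℂ) * Complex.I)) +
        β * (r * Complex.exp (-((Th ψ θ L : ℂ) * Complex.I))) := by
      intro α β hx
      have e : ∀ i j, (rep q (ev (x :: L))).1 i j =
          (rep q (x.val)).1 i 0 * (rep q (ev L)).1 0 j + (rep q (x.val)).1 i 1 * (rep q (ev L)).1 1 j := by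
        intro i j
        rw [ev_cons, map_mul, Matrix.SpecialLinearGroup.coe_mul, Matrix.mul_apply, Fin.sum_univ_two]
      rw [e 1 1, e 0 0, e 1 0, e 0 1, hx, h11, h10]
      refine ⟨?_, ?_, ?_⟩
      · simp; ring
      · simp; ring
      · have hXc := congrArg conj hX
        have c1 : conj (Complex.exp ((ψ : ℂ) * Complex.I)) = Complex.exp (-((ψ : ℂ) * Complex.I)) := by
          rw [← Complex.exp_conj]; congr 1; simp
        have c2 : conj (Complex.exp (-((ψ : ℂ) * Complex.I))) = Complex.exp ((ψ : ℂ) * Complex.I) := by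
          rw [← Complex.exp_conj]; congr 1; simp
        have c3 : conj (Complex.exp ((Th ψ θ L : ℂ) * Complex.I)) =
            Complex.exp (-((Th ψ θ L : ℂ) * Complex.I)) := by
          rw [← Complex.exp_conj]; congr 1; simp
        rw [map_add, map_mul, map_mul, map_mul, c1, c2, c3, Complex.conj_ofReal] at hXc
        rw [← hXc, ← hX]
        simp
        ring
    have fin : ∀ (ε : ℂ), ‖ε‖ = 3/4 → 
        ∃ r' : ℝ, 0 < r' ∧ (5/4 : ℂ) * (r * Complex.exp ((Th ψ θ L : ℂ) * Complex.I)) +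
        ε * (r * Complex.exp (-((Th ψ θ L : ℂ) * Complex.I))) =
        r' * Complex.exp (((Th ψ θ L +
          Complex.arg (5/4 + ε * Complex.exp (-(2 * (Th ψ θ L : ℂ) * Complex.I))) : ℝ) : ℂ) *
            Complex.I) := by
      intro ε hε
      set w := (5/4 + ε * Complex.exp (-(2 * (Th ψ θ L : ℂ) * Complex.I))) with hw
      have hw0 : w ≠ 0 := by
        intro h
        have := re_pos_aux ε hε (Th ψ θ L)
        rw [← hw, h] at this
        simp at this
      refine ⟨r * ‖w‖, mul_pos hr (norm_pos_iff.mpr hw0), ?_⟩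
      have h1 : (‖w‖ : ℂ) * Complex.exp (Complex.arg w * Complex.I) = w := Complex.norm_mul_exp_arg_mul_I w
      have h2 : Complex.exp (((Th ψ θ L + Complex.arg w : ℝ) : ℂ) * Complex.I) =
          Complex.exp ((Th ψ θ L : ℂ) * Complex.I) * Complex.exp (Complex.arg w * Complex.I) := by
        rw [← Complex.exp_add]; congr 1; push_cast; ring
      rw [h2]
      have h3 : ((r * ‖w‖ : ℝ) : ℂ) * (Complex.exp ((Th ψ θ L : ℂ) * Complex.I) *
          Complex.exp (Complex.arg w * Complex.I)) =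
          r * Complex.exp ((Th ψ θ L : ℂ) * Complex.I) *
          ((‖w‖ : ℂ) * Complex.exp (Complex.arg w * Complex.I)) := by push_cast; ring
      rw [h3, h1, hw]
      have h4 : Complex.exp (-((Th ψ θ L : ℂ) * Complex.I)) =
          Complex.exp ((Th ψ θ L : ℂ) * Complex.I) * Complex.exp (-(2 * (Th ψ θ L : ℂ) * Complex.I)) := by
        rw [← Complex.exp_add]; congr 1; ring
      rw [h4]; ring
    cases x
    · obtain ⟨k1, k2, k3⟩ := key q 0 (by rw [rep_a, SA_coe hq0, hqc]; simp)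
      refine ⟨k1, k2, r, hr, ?_⟩
      rw [k3, hq, zero_mul, add_zero]
      simp only [Th]
      have : Complex.exp (((Th ψ θ L + θ : ℝ) : ℂ) * Complex.I) =
          Complex.exp ((Th ψ θ L : ℂ) * Complex.I) * Complex.exp ((θ : ℂ) * Complex.I) := by
        rw [← Complex.exp_add]; congr 1; push_cast; ring
      rw [this]; ring
    · obtain ⟨k1, k2, k3⟩ := key q⁻¹ 0 (by rw [rep_ai, SAi_coe hq0, hqc']; simp)
      refine ⟨k1, k2, r, hr, ?_⟩
      rw [k3, hq, zero_mul, add_zero, ← Complex.exp_neg]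
      simp only [Th]
      have : Complex.exp (((Th ψ θ L - θ : ℝ) : ℂ) * Complex.I) =
          Complex.exp ((Th ψ θ L : ℂ) * Complex.I) * Complex.exp (-((θ : ℂ) * Complex.I)) := by
        rw [← Complex.exp_add]; congr 1; push_cast; ring
      rw [this]; ring
    · obtain ⟨k1, k2, k3⟩ := key (5/4) (3/4) (by rw [rep_b, SB_coe, conj54, conj34])
      obtain ⟨r', hr', h'⟩ := fin (3/4) e34
      refine ⟨k1, k2, r', hr', ?_⟩
      rw [k3, h']
      simp only [Th]
    · obtain ⟨k1, k2, k3⟩ := key (5/4) (-(3/4)) (by rw [rep_bi, SBi_coe, map_neg, conj54, conj34])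
      obtain ⟨r', hr', h'⟩ := fin (-(3/4)) e34'
      refine ⟨k1, k2, r', hr', ?_⟩
      rw [k3, h']
      simp only [Th]

end Pool.Agent.R235.BD
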