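import Pool.Agent.R235.BD.Count

set_option autoImplicit false

open MeasureTheory Filter Topology Set Polynomial
open scoped ComplexConjugate

namespace Pool.Agent.R235.BD

/-- the cubic vanishes when the lifted angle is right -/
lemma cub_zero (θ' θ : ℝ) (L : List Ltr) {k : ℤ}
    (hk : Th (θ' / 2) θ L = θ' + Real.pi / 2 + k * Real.pi) :
    cub (rep (Complex.exp ((θ : ℂ) * Complex.I)) (ev L)).1 (circleMap 0 1 θ') = 0 := by
  obtain ⟨h11, h10, r, hr, hX⟩ := rep_circle (θ' / 2) θ L rfl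
  set A := (rep (Complex.exp ((θ : ℂ) * Complex.I)) (ev L)).1 with hA
  set t : ℂ := Complex.exp (((θ' / 2 : ℝ) : ℂ) * Complex.I) with ht
  have ht0 : t ≠ 0 := Complex.exp_ne_zero _
  have hti : Complex.exp (-(((θ' / 2 : ℝ) : ℂ) * Complex.I)) = t⁻¹ := by rw [Complex.exp_neg]
  have hs : circleMap 0 1 θ' = t ^ 2 := by
    rw [circleMap, ht, ← Complex.exp_nat_mul]
    simp only [Complex.ofReal_one, one_mul, zero_add]
    congr 1
    push_cast
    ring
  rw [hti] at hX
  have hXc := congrArg conj hX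
  have c1 : conj t = t⁻¹ := by
    rw [ht, ← Complex.exp_conj, ← Complex.exp_neg]; congr 1
    rw [map_mul, Complex.conj_ofReal, Complex.conj_I]; ring
  have c3 : conj (Complex.exp ((Th (θ' / 2) θ L : ℂ) * Complex.I)) =
      Complex.exp (-((Th (θ' / 2) θ L : ℂ) * Complex.I)) := by
    rw [← Complex.exp_conj]; congr 1; simp
  rw [map_add, map_mul, map_mul, map_mul, map_inv₀, c1, c3, Complex.conj_ofReal, inv_inv] at hXc
  have key : cub A (t ^ 2) = t ^ 3 * (t⁻¹ ^ 2 * (A 0 0 * t + A 0 1 * t⁻¹) +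
      t ^ 2 * (conj (A 0 0) * t⁻¹ + conj (A 0 1) * t)) := by
    unfold cub
    rw [h11, h10]
    field_simp
    ring
  rw [hs, key, hX, hXc]
  have h1 : t⁻¹ ^ 2 * (r * Complex.exp ((Th (θ' / 2) θ L : ℂ) * Complex.I)) +
      t ^ 2 * (r * Complex.exp (-((Th (θ' / 2) θ L : ℂ) * Complex.I))) =
      2 * r * Complex.cos (((Th (θ' / 2) θ L - θ' : ℝ) : ℂ)) := by
    have e1 : t⁻¹ ^ 2 = Complex.exp (-((θ' : ℂ) * Complex.I)) := by
      rw [← hti, ← Complex.exp_nat_mul]; congr 1; push_cast; ring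
    have e2 : t ^ 2 = Complex.exp ((θ' : ℂ) * Complex.I) := by
      rw [ht, ← Complex.exp_nat_mul]; congr 1; push_cast; ring
    rw [e1, e2, Complex.cos]
    have e3 : Complex.exp (((Th (θ' / 2) θ L - θ' : ℝ) : ℂ) * Complex.I) =
        Complex.exp (-((θ' : ℂ) * Complex.I)) * Complex.exp ((Th (θ' / 2) θ L : ℂ) * Complex.I) := by
      rw [← Complex.exp_add]; congr 1; push_cast; ring
    have e4 : Complex.exp (-((Th (θ' / 2) θ L - θ' : ℝ) : ℂ) * Complex.I) =
        Complex.exp ((θ' : ℂ) * Complex.I) * Complex.exp (-((Th (θ' / 2) θ L : ℂ) * Complex.I)) := by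
      rw [← Complex.exp_add]; congr 1; push_cast; ring
    rw [e3, e4]; ring
  rw [h1]
  have h2 : Real.cos (Th (θ' / 2) θ L - θ') = 0 := by
    rw [Real.cos_eq_zero_iff]
    refine ⟨k, ?_⟩
    rw [hk]; ring
  rw [← Complex.ofReal_cos, h2]
  simp

theorem count_roots (L : List Ltr) (θ' : ℝ) (P : ℂ[X]) (m : ℕ) (hP : P ≠ 0)
    (hPe : ∀ q, q ≠ 0 → cub (rep q (ev L)).1 (circleMap 0 1 θ') * q ^ m = P.eval q)
    {φ : ℂ → ℝ} (hφ0 : ∀ z, 0 ≤ φ z)
    (hφ1 : ∀ θ ∈ Icc (1/2 : ℝ) (3/2), 1 ≤ φ (Complex.exp ((θ : ℂ) * Complex.I))) :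
    (L.map dd).sum / Real.pi - 1 ≤ (P.roots.map φ).sum := by
  have hpi := Real.pi_pos
  set f : ℝ → ℝ := fun θ => Th (θ' / 2) θ L with hf
  have hfc : Continuous f := continuous_Th _ L
  have hfd : (L.map dd).sum ≤ f (3/2) - f (1/2) := Th_diff _ L (by norm_num)
  set α : ℝ := (f (1/2) - θ' - Real.pi / 2) / Real.pi with hα
  set β : ℝ := (f (3/2) - θ' - Real.pi / 2) / Real.pi with hβ
  set T : Finset ℤ := Finset.Icc ⌈α⌉ ⌊β⌋ with hT
  have hchoice : ∀ k ∈ T, ∃ θ ∈ Icc (1/2 : ℝ) (3/2), f θ = θ' + Real.pi / 2 + k * Real.pi := by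
    intro k hk
    rw [hT, Finset.mem_Icc] at hk
    have h1 : α ≤ k := Int.ceil_le.mp hk.1
    have h2 : (k : ℝ) ≤ β := Int.le_floor.mp hk.2
    rw [hα, div_le_iff₀ hpi] at h1
    rw [hβ, le_div_iff₀ hpi] at h2
    have h3 := intermediate_value_Icc (by norm_num : (1/2 : ℝ) ≤ 3/2) hfc.continuousOn
    obtain ⟨θ, hθ, hθ2⟩ := h3 (show θ' + Real.pi / 2 + k * Real.pi ∈ Icc (f (1/2)) (f (3/2)) from
      ⟨by linarith, by linarith⟩)
    exact ⟨θ, hθ, hθ2⟩
  choose! th hth hthv using hchoice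
  let κ : ℤ → ℂ := fun k => Complex.exp ((th k : ℂ) * Complex.I)
  have hinj : Set.InjOn κ T := by
    intro k hk l hl hkl
    have h1 := hth k hk
    have h2 := hth l hl
    have h3 : th k = th l := by
      have h4 : Complex.exp ((th k : ℂ) * Complex.I) = Complex.exp ((th l : ℂ) * Complex.I) := hkl
      rw [Complex.exp_eq_exp_iff_exists_int] at h4
      obtain ⟨n, hn⟩ := h4
      have h5 : th k = th l + n * (2 * Real.pi) := by
        have := congrArg Complex.im hn
        simpa using this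
      have hn0 : n = 0 := by
        by_contra hne
        have h6 : (1 : ℝ) ≤ |(n : ℝ)| := by
          rw [← Int.cast_abs]; exact_mod_cast Int.one_le_abs hne
        have h7 : |th k - th l| = |(n : ℝ)| * (2 * Real.pi) := by
          rw [show th k - th l = n * (2 * Real.pi) by linarith, abs_mul,
            abs_of_pos (by positivity : (0:ℝ) < 2 * Real.pi)]
        have h8 : |th k - th l| ≤ 1 := by
          rw [abs_le]; constructor <;> linarith [h1.1, h1.2, h2.1, h2.2]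
        have h9 := Real.pi_gt_three
        nlinarith
      rw [hn0] at h5; simpa using h5
    have h6 := hthv k hk
    have h7 := hthv l hl
    rw [h3] at h6
    have h8 : (k : ℝ) * Real.pi = l * Real.pi := by linarith
    have h9 := mul_right_cancel₀ hpi.ne' h8
    exact_mod_cast h9
  have hroot : ∀ k ∈ T, κ k ∈ P.roots.toFinset := by
    intro k hk
    have h1 : cub (rep (κ k) (ev L)).1 (circleMap 0 1 θ') = 0 := cub_zero θ' (th k) L (hthv k hk)
    have h2 := hPe (κ k) (Complex.exp_ne_zero _)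
    rw [h1, zero_mul] at h2
    simp [hP, ← h2]
  have hcard : (T.card : ℝ) ≤ (P.roots.map φ).sum := by
    have h1 : (P.roots.map φ).sum = ∑ z ∈ P.roots.toFinset, P.roots.count z • φ z :=
      Finset.sum_multiset_map_count _ _
    rw [h1]
    have h2 : ∑ z ∈ T.image κ, (1 : ℝ) ≤ ∑ z ∈ T.image κ, P.roots.count z • φ z := by
      apply Finset.sum_le_sum
      intro z hz
      obtain ⟨k, hk, rfl⟩ := Finset.mem_image.mp hz
      have h3 : 1 ≤ P.roots.count (κ k) := Multiset.one_le_count_iff_mem.mpr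
        (Multiset.mem_toFinset.mp (hroot k hk))
      have h4 : 1 ≤ φ (κ k) := hφ1 _ (hth k hk)
      rw [nsmul_eq_mul]
      have h5 : (1 : ℝ) ≤ (P.roots.count (κ k) : ℝ) := by exact_mod_cast h3
      nlinarith
    have h3 : ∑ z ∈ T.image κ, P.roots.count z • φ z ≤
        ∑ z ∈ P.roots.toFinset, P.roots.count z • φ z := by
      apply Finset.sum_le_sum_of_subset_of_nonneg
      · intro z hz
        obtain ⟨k, hk, rfl⟩ := Finset.mem_image.mp hz
        exact hroot k hk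
      · intro z _ _
        exact nsmul_nonneg (hφ0 z) _
    rw [Finset.sum_const, Finset.card_image_of_injOn hinj, nsmul_eq_mul, mul_one] at h2
    exact h2.trans h3
  refine le_trans ?_ hcard
  have h1 : β - α - 1 ≤ (T.card : ℝ) := by
    rw [hT, Int.card_Icc]
    have h2 : ((⌊β⌋ + 1 - ⌈α⌉ : ℤ) : ℝ) ≤ (((⌊β⌋ + 1 - ⌈α⌉).toNat : ℤ) : ℝ) := by
      exact_mod_cast Int.self_le_toNat _
    have h3 : β - 1 < ⌊β⌋ := Int.sub_one_lt_floor β
    have h4 : (⌈α⌉ : ℝ) < α + 1 := Int.ceil_lt_add_one α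
    push_cast at h2
    have h5 : (((⌊β⌋ + 1 - ⌈α⌉).toNat : ℤ) : ℝ) = ((⌊β⌋ + 1 - ⌈α⌉).toNat : ℝ) := by norm_cast
    linarith
  refine le_trans ?_ h1
  have h2 : (L.map dd).sum / Real.pi ≤ β - α := by
    rw [hβ, hα, ← sub_div]
    apply div_le_div_of_nonneg_right _ hpi.le
    linarith
  linarith

end Pool.Agent.R235.BD
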