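import Mathlib

/-!
# Holomorphic families of representations into `PSL(2,ℂ)`, Lyapunov exponents, bifurcation measure

Definitions for problem MP_bed24d_an.
-/

set_option autoImplicit false

open MeasureTheory Filter Topology
open scoped LinearAlgebra.Projectivization ContDiff

namespace Pool.Agent.R235.BD

/-- `SL(2,ℂ)`. -/
abbrev SL2C : Type := Matrix.SpecialLinearGroup (Fin 2) ℂ

/-- `SL(2,ℝ)`. -/
abbrev SL2R : Type := Matrix.SpecialLinearGroup (Fin 2) ℝ

/-- `PSL(2,ℂ)`, the quotient of `SL(2,ℂ)` by its centre. -/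
abbrev PSL2C : Type := Matrix.ProjectiveSpecialLinearGroup (Fin 2) ℂ

/-- The quotient map `SL(2,ℂ) → PSL(2,ℂ)`. -/
def toPSL : SL2C →* PSL2C := QuotientGroup.mk' _

/-- The largest modulus of an entry of a `2 × 2` matrix. -/
noncomputable def maxNorm (A : Matrix (Fin 2) (Fin 2) ℂ) : ℝ :=
  max (max ‖A 0 0‖ ‖A 0 1‖) (max ‖A 1 0‖ ‖A 1 1‖)

/-- The norm of an element of `PSL(2,ℂ)`: the largest modulus of an entry of a representative
(the two representatives differ by a sign). -/
noncomputable def pnorm (x : PSL2C) : ℝ := maxNorm (Quotient.out x : SL2C).1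

/-- A map to `PSL(2,ℂ)` is holomorphic on the open set `U`: near every point of `U` it is the
projection of a map to `SL(2,ℂ)` with holomorphic entries. -/
def HolomorphicPSL (U : Set ℂ) (r : ℂ → PSL2C) : Prop :=
  ∀ z ∈ U, ∃ V ∈ 𝓝 z, ∃ A : ℂ → SL2C,
    (∀ i j, DifferentiableOn ℂ (fun w => (A w).1 i j) V) ∧ ∀ w ∈ V, toPSL (A w) = r w

/-- A representation into `PSL(2,ℂ)` is non-elementary: its image has no finite orbit on the
projective line `ℙ¹(ℂ)` and is not relatively compact (norms are unbounded). -/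
def NonElementary {G : Type} [Group G] (r : G →* PSL2C) : Prop :=
  (∀ x : ℙ ℂ (Fin 2 → ℂ), (Set.range fun g => r g • x).Infinite) ∧
    ¬ BddAbove (Set.range fun g => pnorm (r g))

/-- `ρ` is a holomorphic family, over the domain `U ⊆ ℂ`, of representations of `G` into
`PSL(2,ℂ)`: holomorphic in the parameter, every `ρ z` non-elementary, `ρ z` faithful for generic
`z` (all `z` outside a countable set), and the `ρ z` are not all conjugate in `PSL(2,ℂ)`. -/
structure IsHolomorphicFamily {G : Type} [Group G] (U : Set ℂ) (ρ : ℂ → G →* PSL2C) : Prop where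
  isOpen : IsOpen U
  isConnected : IsConnected U
  holomorphic : ∀ g, HolomorphicPSL U fun z => ρ z g
  nonElementary : ∀ z ∈ U, NonElementary (ρ z)
  faithful : {z ∈ U | ¬ Function.Injective (ρ z)}.Countable
  nonConj : ∃ z ∈ U, ∃ w ∈ U, ¬ ∃ C : PSL2C, ∀ g, ρ w g = C * ρ z g * C⁻¹

/-- `μ`, an element of the group algebra `ℝ[G]`, is an admissible probability measure on `G`
(finitely supported, by definition of the group algebra): nonnegative weights with sum `1`, and
the support generates `G` as a semigroup. -/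
structure Admissible {G : Type} [Group G] (μ : MonoidAlgebra ℝ G) : Prop where
  nonneg : ∀ g, 0 ≤ μ.coeff g
  total : (μ.coeff.sum fun _ c => c) = 1
  generates : Subsemigroup.closure (μ.coeff.support : Set G) = ⊤

/-- The integral of `F` against the finitely supported measure `μ`. -/
noncomputable def expect {G : Type} [Group G] (μ : MonoidAlgebra ℝ G) (F : G → ℝ) : ℝ :=
  μ.coeff.sum fun g c => c * F g

/-- `c` is the Lyapunov exponent of `r`: the limit of `(1/n) ∫ log ‖r g‖ dμⁿ(g)`, where the power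
`μ ^ n` in the group algebra is the `n`-th convolution power. -/
def IsLyapunovExponent {G : Type} [Group G] (μ : MonoidAlgebra ℝ G) (r : G →* PSL2C) (c : ℝ) :
    Prop :=
  Tendsto (fun n : ℕ => (1 / (n : ℝ)) * expect (μ ^ n) fun g => Real.log (pnorm (r g)))
    atTop (𝓝 c)

/-- `T` is the positive measure `ddᶜ χ = (1/2π) Δχ` on the domain `U`: the function `χ` is
locally integrable on `U`, `T` is finite on compact subsets of `U`, and
`∫ φ dT = (1/2π) ∫ χ Δφ` for all smooth `φ` with compact support in `U`. -/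
def IsDDc (U : Set ℂ) (χ : ℂ → ℝ) (T : Measure ℂ) : Prop :=
  LocallyIntegrableOn χ U ∧ (∀ K ⊆ U, IsCompact K → T K < ⊤) ∧
    ∀ φ : ℂ → ℝ, ContDiff ℝ ∞ φ → HasCompactSupport φ → tsupport φ ⊆ U →
      ∫ z, φ z ∂T = (1 / (2 * Real.pi)) * ∫ z, χ z * Laplacian.laplacian φ z

/-- The real locus: the parameters `z ∈ U` such that `ρ z (G)` is conjugate in `PSL(2,ℂ)` into
`PSL(2,ℝ)`. -/
def realLocus {G : Type} [Group G] (U : Set ℂ) (ρ : ℂ → G →* PSL2C) : Set ℂ :=
  {z ∈ U | ∃ C : PSL2C, ∀ g, ∃ A : SL2R,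
    C * ρ z g * C⁻¹ = toPSL (A.map (algebraMap ℝ ℂ))}

end Pool.Agent.R235.BD
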