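import Pool.Agent.R235.BD.Defs

set_option autoImplicit false

open MeasureTheory Filter Topology
open scoped LinearAlgebra.Projectivization ContDiff

namespace Pool.Agent.R235.BD

lemma norm_entry_le (A : Matrix (Fin 2) (Fin 2) ℂ) (i j : Fin 2) : ‖A i j‖ ≤ maxNorm A := by
  unfold maxNorm
  fin_cases i <;> fin_cases j <;> simp

lemma maxNorm_le {A : Matrix (Fin 2) (Fin 2) ℂ} {c : ℝ} (h : ∀ i j, ‖A i j‖ ≤ c) :
    maxNorm A ≤ c := by
  unfold maxNorm
  exact max_le (max_le (h _ _) (h _ _)) (max_le (h _ _) (h _ _))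

lemma maxNorm_nonneg (A : Matrix (Fin 2) (Fin 2) ℂ) : 0 ≤ maxNorm A :=
  (norm_nonneg _).trans (norm_entry_le A 0 0)

lemma maxNorm_mul (A B : Matrix (Fin 2) (Fin 2) ℂ) :
    maxNorm (A * B) ≤ 2 * (maxNorm A * maxNorm B) := by
  apply maxNorm_le
  intro i j
  rw [Matrix.mul_apply, Fin.sum_univ_two]
  calc ‖A i 0 * B 0 j + A i 1 * B 1 j‖ ≤ ‖A i 0‖ * ‖B 0 j‖ + ‖A i 1‖ * ‖B 1 j‖ := by
        refine (norm_add_le _ _).trans ?_
        rw [norm_mul, norm_mul]
    _ ≤ maxNorm A * maxNorm B + maxNorm A * maxNorm B := by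
        have := maxNorm_nonneg A
        gcongr <;> apply norm_entry_le
    _ = _ := by ring

lemma maxNorm_sq_ge (A : SL2C) : 1 ≤ 2 * maxNorm A.1 ^ 2 := by
  have h := A.2
  rw [Matrix.det_fin_two] at h
  have h1 : ‖A.1 0 0 * A.1 1 1 - A.1 0 1 * A.1 1 0‖ = 1 := by rw [h]; simp
  have h2 : ‖A.1 0 0 * A.1 1 1 - A.1 0 1 * A.1 1 0‖ ≤ maxNorm A.1 * maxNorm A.1 +
      maxNorm A.1 * maxNorm A.1 := by
    refine (norm_sub_le _ _).trans ?_
    rw [norm_mul, norm_mul]
    have := maxNorm_nonneg A.1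
    gcongr <;> apply norm_entry_le
  nlinarith

lemma maxNorm_pos (A : SL2C) : 0 < maxNorm A.1 := by
  have h := maxNorm_sq_ge A
  have h2 := maxNorm_nonneg A.1
  rcases h2.eq_or_lt with h3 | h3
  · rw [← h3] at h; norm_num at h
  · exact h3

lemma maxNorm_smul (c : ℂ) (A : Matrix (Fin 2) (Fin 2) ℂ) :
    maxNorm (c • A) = ‖c‖ * maxNorm A := by
  unfold maxNorm
  have h := norm_nonneg c
  simp only [Matrix.smul_apply, smul_eq_mul, norm_mul]
  rw [mul_max_of_nonneg _ _ h, mul_max_of_nonneg _ _ h, mul_max_of_nonneg _ _ h]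

lemma toPSL_surj (x : PSL2C) : ∃ A : SL2C, toPSL A = x := QuotientGroup.mk_surjective x

/-- two lifts differ by a sign -/
lemma toPSL_eq_iff (A B : SL2C) : toPSL A = toPSL B ↔ (A.1 = B.1 ∨ A.1 = -B.1) := by
  unfold toPSL
  rw [QuotientGroup.mk'_apply, QuotientGroup.mk'_apply, QuotientGroup.eq,
    Matrix.SpecialLinearGroup.mem_center_iff]
  constructor
  · rintro ⟨r, hr, h⟩
    have h1 : B.1 = r • A.1 := by
      have h2 : A.1 * (A⁻¹ * B).1 = A.1 * Matrix.scalar (Fin 2) r := by rw [h]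
      have h3 : A.1 * (A⁻¹ * B).1 = B.1 := by
        rw [← Matrix.SpecialLinearGroup.coe_mul, mul_inv_cancel_left]
      rw [h3] at h2
      rw [h2]
      ext i j
      simp [Matrix.mul_apply, Matrix.scalar_apply, Matrix.diagonal_apply, mul_comm]
    have hr2 : r = 1 ∨ r = -1 := by
      simp only [Fintype.card_fin] at hr
      have h4 : (r - 1) * (r + 1) = 0 := by linear_combination hr
      rcases mul_eq_zero.mp h4 with h5 | h5
      · left; linear_combination h5
      · right; linear_combination h5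
    rcases hr2 with rfl | rfl
    · left; rw [h1]; simp
    · right; rw [h1]; simp
  · rintro (h | h)
    · refine ⟨1, by simp, ?_⟩
      have : A = B := Subtype.ext h
      subst this
      simp
    · refine ⟨-1, by simp, ?_⟩
      have : A = -B := Subtype.ext (by rw [h]; rfl)
      subst this
      have h6 : ((-B)⁻¹ * B : SL2C) = -1 := by
        rw [inv_mul_eq_iff_eq_mul]; simp
      rw [h6]
      ext i j
      fin_cases i <;> fin_cases j <;> simp

lemma pnorm_toPSL (A : SL2C) : pnorm (toPSL A) = maxNorm A.1 := by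
  unfold pnorm
  have h : toPSL (Quotient.out (toPSL A) : SL2C) = toPSL A := QuotientGroup.out_eq' _
  rcases (toPSL_eq_iff _ _).mp h with h | h
  · rw [h]
  · rw [h]
    have : -A.1 = (-1 : ℂ) • A.1 := by simp
    rw [this, maxNorm_smul]
    simp

lemma pnorm_pos (x : PSL2C) : 0 < pnorm x := maxNorm_pos _

lemma pnorm_mul (x y : PSL2C) : pnorm (x * y) ≤ 2 * (pnorm x * pnorm y) := by
  obtain ⟨A, rfl⟩ := toPSL_surj x
  obtain ⟨B, rfl⟩ := toPSL_surj y
  rw [← map_mul, pnorm_toPSL, pnorm_toPSL, pnorm_toPSL, Matrix.SpecialLinearGroup.coe_mul]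
  exact maxNorm_mul _ _

lemma pnorm_one : pnorm 1 = 1 := by
  have : (1 : PSL2C) = toPSL 1 := (map_one _).symm
  rw [this, pnorm_toPSL]
  simp [maxNorm]

lemma log_pnorm_mul (x y : PSL2C) :
    Real.log (pnorm (x * y)) ≤ Real.log 2 + Real.log (pnorm x) + Real.log (pnorm y) := by
  have h := Real.log_le_log (pnorm_pos _) (pnorm_mul x y)
  rw [Real.log_mul (by norm_num) (mul_pos (pnorm_pos _) (pnorm_pos _)).ne',
    Real.log_mul (pnorm_pos _).ne' (pnorm_pos _).ne'] at h
  linarith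

lemma log_pnorm_ge (x : PSL2C) : -Real.log 2 ≤ Real.log (pnorm x) := by
  have h := maxNorm_sq_ge (Quotient.out x : SL2C)
  have h2 := Real.log_le_log (by norm_num) h
  have hp : 0 < pnorm x := pnorm_pos x
  change 1 ≤ 2 * pnorm x ^ 2 at h
  have h3 := Real.log_le_log (by norm_num) h
  rw [Real.log_one, Real.log_mul (by norm_num) (by positivity), Real.log_pow] at h3
  have h4 : 0 < Real.log 2 := Real.log_pos (by norm_num)
  push_cast at h3
  linarith

end Pool.Agent.R235.BD
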