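import Pool.Agent.R235.BD.Exp
import Pool.Agent.R235.BD.Mat

set_option autoImplicit false

open MeasureTheory Filter Topology

namespace Pool.Agent.R235.BD

variable {G : Type} [Group G]

/-- `∫ log ‖r g‖ dμⁿ(g)`. -/
noncomputable def uu (μ : MonoidAlgebra ℝ G) (r : G →* PSL2C) (n : ℕ) : ℝ :=
  expect (μ ^ n) fun g => Real.log (pnorm (r g))

lemma uu_ge {μ : MonoidAlgebra ℝ G} (hμ : NN μ) (h1 : expect μ (fun _ => 1) = 1)
    (r : G →* PSL2C) (n : ℕ) : -Real.log 2 ≤ uu μ r n := by
  have := expect_mono (nn_pow hμ n) (F := fun _ => -Real.log 2)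
    (H := fun g => Real.log (pnorm (r g))) (fun g => log_pnorm_ge _)
  rwa [expect_const_pow h1] at this

lemma uu_add_le {μ : MonoidAlgebra ℝ G} (hμ : NN μ) (h1 : expect μ (fun _ => 1) = 1)
    (r : G →* PSL2C) (m n : ℕ) : uu μ r (m + n) ≤ Real.log 2 + uu μ r m + uu μ r n := by
  unfold uu
  rw [pow_add, expect_mul]
  have h2 : ∀ g, expect (μ ^ n) (fun h => Real.log (pnorm (r (g * h)))) ≤
      (Real.log 2 + Real.log (pnorm (r g))) + expect (μ ^ n) (fun h => Real.log (pnorm (r h))) := by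
    intro g
    have := expect_mono (nn_pow hμ n) (F := fun h => Real.log (pnorm (r (g * h))))
      (H := fun h => (Real.log 2 + Real.log (pnorm (r g))) + Real.log (pnorm (r h)))
      (fun h => by rw [map_mul]; exact log_pnorm_mul _ _)
    rwa [expect_fun_add (μ ^ n) (fun _ => Real.log 2 + Real.log (pnorm (r g))),
      expect_const_pow h1] at this
  refine (expect_mono (nn_pow hμ m) h2).trans (le_of_eq ?_)
  rw [expect_fun_add (μ ^ m) _ (fun _ => expect (μ ^ n) (fun h => Real.log (pnorm (r h)))),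
    expect_const_pow h1, expect_fun_add (μ ^ m) (fun _ => Real.log 2), expect_const_pow h1]

lemma uu_zero (μ : MonoidAlgebra ℝ G) (r : G →* PSL2C) : uu μ r 0 = 0 := by
  unfold uu
  rw [pow_zero, expect_one, map_one, pnorm_one, Real.log_one]

lemma uu_le {μ : MonoidAlgebra ℝ G} (hμ : NN μ) (h1 : expect μ (fun _ => 1) = 1)
    (r : G →* PSL2C) (n : ℕ) : uu μ r n ≤ n * (Real.log 2 + uu μ r 1) := by
  induction n with
  | zero => rw [uu_zero]; simp
  | succ n ih =>
    have := uu_add_le hμ h1 r n 1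
    push_cast
    linarith

lemma exists_lyap {μ : MonoidAlgebra ℝ G} (hμ : NN μ) (h1 : expect μ (fun _ => 1) = 1)
    (r : G →* PSL2C) : ∃ c, IsLyapunovExponent μ r c := by
  have hl2 : 0 < Real.log 2 := Real.log_pos (by norm_num)
  let v : ℕ → ℝ := fun n => uu μ r n + Real.log 2
  have hsub : Subadditive v := by
    intro m n
    have := uu_add_le hμ h1 r m n
    simp only [v]
    linarith
  have hbdd : BddBelow (Set.range fun n => v n / n) := by
    refine ⟨0, ?_⟩
    rintro _ ⟨n, rfl⟩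
    have := uu_ge hμ h1 r n
    simp only [v]
    apply div_nonneg _ (Nat.cast_nonneg n)
    linarith
  refine ⟨hsub.lim, ?_⟩
  have h2 := hsub.tendsto_lim hbdd
  have h3 : Tendsto (fun n : ℕ => Real.log 2 / (n : ℝ)) atTop (𝓝 0) :=
    tendsto_const_div_atTop_nhds_zero_nat _
  have h4 := h2.sub h3
  rw [sub_zero] at h4
  unfold IsLyapunovExponent
  refine h4.congr fun n => ?_
  simp only [v, uu]
  ring

/-- bounds for `(1/n) ∫ log ‖r g‖ dμⁿ(g)` -/
lemma uu_div_abs_le {μ : MonoidAlgebra ℝ G} (hμ : NN μ) (h1 : expect μ (fun _ => 1) = 1)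
    (r : G →* PSL2C) (n : ℕ) : |(1 / (n : ℝ)) * uu μ r n| ≤ Real.log 2 + |uu μ r 1| := by
  have hl2 : 0 < Real.log 2 := Real.log_pos (by norm_num)
  rcases Nat.eq_zero_or_pos n with rfl | hn
  · simp
    positivity
  have hn' : (1 : ℝ) ≤ n := by exact_mod_cast hn
  have h2 := uu_ge hμ h1 r n
  have h3 := uu_le hμ h1 r n
  have h4 := le_abs_self (uu μ r 1)
  have h5 := abs_nonneg (uu μ r 1)
  rw [one_div, inv_mul_eq_div, abs_le]
  constructor
  · rw [le_div_iff₀ (by linarith)]
    nlinarith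
  · rw [div_le_iff₀ (by linarith)]
    nlinarith

end Pool.Agent.R235.BD
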