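import Pool.Agent.R235.BD.Fub3
import Pool.Agent.R235.BD.Lyap

set_option autoImplicit false

open MeasureTheory Filter Topology Set Polynomial

namespace Pool.Agent.R235.BD

/-- the diagonal matrix `diag(q, 1/q)` (the identity for `q = 0`) -/
noncomputable def SA (q : ℂ) : SL2C :=
  if h : q = 0 then 1 else ⟨!![q, 0; 0, q⁻¹], by simp [Matrix.det_fin_two, h]⟩

/-- the hyperbolic matrix `[[5/4, 3/4], [3/4, 5/4]]` -/
noncomputable def SB : SL2C := ⟨!![5/4, 3/4; 3/4, 5/4], by norm_num [Matrix.det_fin_two]⟩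

/-- generators -/
noncomputable def genM (q : ℂ) (i : Bool) : SL2C := if i then SB else SA q

/-- the representation into `SL(2,ℂ)` -/
noncomputable def rep (q : ℂ) : FreeGroup Bool →* SL2C := FreeGroup.lift (genM q)

/-- the representation into `PSL(2,ℂ)` -/
noncomputable def rho (q : ℂ) : FreeGroup Bool →* PSL2C := toPSL.comp (rep q)

/-- the four letters -/
inductive Ltr
  | a | ai | b | bi

/-- the group element of a letter -/
def Ltr.val : Ltr → FreeGroup Bool
  | .a => FreeGroup.of false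
  | .ai => (FreeGroup.of false)⁻¹
  | .b => FreeGroup.of true
  | .bi => (FreeGroup.of true)⁻¹

/-- evaluation of a word -/
def ev (L : List Ltr) : FreeGroup Bool := (L.map Ltr.val).prod

lemma ev_nil : ev [] = 1 := rfl
lemma ev_cons (x : Ltr) (L : List Ltr) : ev (x :: L) = x.val * ev L := by simp [ev]

lemma rep_a (q : ℂ) : rep q (Ltr.a.val) = SA q := by simp [rep, Ltr.val, genM]
lemma rep_ai (q : ℂ) : rep q (Ltr.ai.val) = (SA q)⁻¹ := by simp [rep, Ltr.val, genM]
lemma rep_b (q : ℂ) : rep q (Ltr.b.val) = SB := by simp [rep, Ltr.val, genM]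
lemma rep_bi (q : ℂ) : rep q (Ltr.bi.val) = SB⁻¹ := by simp [rep, Ltr.val, genM]

lemma SA_coe {q : ℂ} (hq : q ≠ 0) : (SA q).1 = !![q, 0; 0, q⁻¹] := by simp [SA, hq]
lemma SAi_coe {q : ℂ} (hq : q ≠ 0) : (SA q)⁻¹.1 = !![q⁻¹, 0; 0, q] := by
  rw [Matrix.SpecialLinearGroup.coe_inv, SA_coe hq, Matrix.adjugate_fin_two_of]; simp
lemma SB_coe : SB.1 = !![5/4, 3/4; 3/4, 5/4] := rfl
lemma SBi_coe : SB⁻¹.1 = !![5/4, -(3/4); -(3/4), 5/4] := by
  rw [Matrix.SpecialLinearGroup.coe_inv, SB_coe, Matrix.adjugate_fin_two_of]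

/-- matrices with Laurent entries are stable under products -/
lemma laur_mul {M N : ℂ → SL2C} (hM : ∀ i j, Laur (fun q => (M q).1 i j))
    (hN : ∀ i j, Laur (fun q => (N q).1 i j)) : ∀ i j, Laur (fun q => (M q * N q).1 i j) := by
  intro i j
  have h : ∀ q, (M q * N q).1 i j = (M q).1 i 0 * (N q).1 0 j + (M q).1 i 1 * (N q).1 1 j := by
    intro q
    rw [Matrix.SpecialLinearGroup.coe_mul, Matrix.mul_apply, Fin.sum_univ_two]
  simp only [h]
  exact ((hM i 0).mul (hN 0 j)).add ((hM i 1).mul (hN 1 j))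

lemma laur_inv {M : ℂ → SL2C} (hM : ∀ i j, Laur (fun q => (M q).1 i j)) :
    ∀ i j, Laur (fun q => (M q)⁻¹.1 i j) := by
  intro i j
  have h : ∀ q, (M q)⁻¹.1 = !![(M q).1 1 1, -(M q).1 0 1; -(M q).1 1 0, (M q).1 0 0] := by
    intro q
    rw [Matrix.SpecialLinearGroup.coe_inv, Matrix.adjugate_fin_two]
  simp only [h]
  fin_cases i <;> fin_cases j
  · exact hM 1 1
  · exact (hM 0 1).neg
  · exact (hM 1 0).neg
  · exact hM 0 0

lemma laur_rep (g : FreeGroup Bool) : ∀ i j, Laur (fun q => (rep q g).1 i j) := by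
  induction g using FreeGroup.induction_on with
  | C1 =>
    intro i j
    simp only [map_one]
    exact Laur.const _
  | of x =>
    intro i j
    cases x
    · have h : ∀ q, q ≠ 0 → (rep q (FreeGroup.of false)).1 i j = !![q, 0; 0, q⁻¹] i j := by
        intro q hq
        have := rep_a q
        simp only [Ltr.val] at this
        rw [this, SA_coe hq]
      refine Laur.congr ?_ h
      fin_cases i <;> fin_cases j
      · exact Laur.id
      · exact Laur.const 0
      · exact Laur.const 0
      · exact Laur.inv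
    · have h : ∀ q, q ≠ 0 → (rep q (FreeGroup.of true)).1 i j = SB.1 i j := by
        intro q hq
        have := rep_b q
        simp only [Ltr.val] at this
        rw [this]
      exact (Laur.const (SB.1 i j)).congr h
  | inv_of x ih =>
    simp only [map_inv]
    exact laur_inv ih
  | mul x y hx hy =>
    simp only [map_mul]
    exact laur_mul hx hy

end Pool.Agent.R235.BD
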