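import Pool.Agent.R235.BD.Defs

set_option autoImplicit false

open MeasureTheory Filter Topology

namespace Pool.Agent.R235.BD

variable {G : Type} [Group G]

lemma expect_add (μ ν : MonoidAlgebra ℝ G) (F : G → ℝ) :
    expect (μ + ν) F = expect μ F + expect ν F := by
  unfold expect
  rw [MonoidAlgebra.coeff_add]
  exact Finsupp.sum_add_index' (fun _ => by simp) (fun _ _ _ => by ring)

lemma expect_zero (F : G → ℝ) : expect (0 : MonoidAlgebra ℝ G) F = 0 := by
  unfold expect; simp

lemma expect_single (g : G) (c : ℝ) (F : G → ℝ) :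
    expect (MonoidAlgebra.single g c) F = c * F g := by
  unfold expect
  rw [MonoidAlgebra.coeff_single, Finsupp.sum_single_index (by simp)]

lemma expect_one (F : G → ℝ) : expect (1 : MonoidAlgebra ℝ G) F = F 1 := by
  rw [MonoidAlgebra.one_def, expect_single, one_mul]

lemma expect_fun_add (μ : MonoidAlgebra ℝ G) (F H : G → ℝ) :
    expect μ (fun g => F g + H g) = expect μ F + expect μ H := by
  unfold expect
  rw [← Finsupp.sum_add]
  congr 1
  funext g c
  ring

lemma expect_fun_mul (μ : MonoidAlgebra ℝ G) (c : ℝ) (F : G → ℝ) :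
    expect μ (fun g => c * F g) = c * expect μ F := by
  unfold expect
  rw [Finsupp.mul_sum]
  congr 1
  funext g d
  ring

lemma expect_single_mul (g : G) (c : ℝ) (ν : MonoidAlgebra ℝ G) (F : G → ℝ) :
    expect (MonoidAlgebra.single g c * ν) F = c * expect ν (fun h => F (g * h)) := by
  induction ν using MonoidAlgebra.induction_linear with
  | zero => simp [expect_zero]
  | add x y hx hy => rw [mul_add, expect_add, hx, hy, expect_add]; ring
  | single h d => rw [MonoidAlgebra.single_mul_single, expect_single, expect_single]; ring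

lemma expect_mul (μ ν : MonoidAlgebra ℝ G) (F : G → ℝ) :
    expect (μ * ν) F = expect μ (fun g => expect ν (fun h => F (g * h))) := by
  induction μ using MonoidAlgebra.induction_linear with
  | zero => simp [expect_zero]
  | add x y hx hy => rw [add_mul, expect_add, hx, hy, expect_add]
  | single h d => rw [expect_single_mul, expect_single]

/-- nonnegative elements of the group algebra -/
def NN (μ : MonoidAlgebra ℝ G) : Prop := ∀ g, 0 ≤ μ.coeff g

lemma expect_nonneg {μ : MonoidAlgebra ℝ G} (hμ : NN μ) {F : G → ℝ} (hF : ∀ g, 0 ≤ F g) :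
    0 ≤ expect μ F := by
  unfold expect
  exact Finsupp.sum_nonneg fun g _ => mul_nonneg (hμ g) (hF g)

lemma expect_mono {μ : MonoidAlgebra ℝ G} (hμ : NN μ) {F H : G → ℝ} (h : ∀ g, F g ≤ H g) :
    expect μ F ≤ expect μ H := by
  unfold expect
  exact Finsupp.sum_le_sum fun g _ => mul_le_mul_of_nonneg_left (h g) (hμ g)

lemma nn_single {g : G} {c : ℝ} (hc : 0 ≤ c) : NN (MonoidAlgebra.single g c) := by
  classical
  intro h
  rw [MonoidAlgebra.coeff_single, Finsupp.single_apply]
  split_ifs <;> simp [hc]

lemma nn_add {μ ν : MonoidAlgebra ℝ G} (hμ : NN μ) (hν : NN ν) : NN (μ + ν) := by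
  intro g
  rw [MonoidAlgebra.coeff_add, Finsupp.add_apply]
  exact add_nonneg (hμ g) (hν g)

lemma nn_mul {μ ν : MonoidAlgebra ℝ G} (hμ : NN μ) (hν : NN ν) : NN (μ * ν) := by
  classical
  intro g
  have h : (μ * ν).coeff g = expect (μ * ν) (fun h => if h = g then 1 else 0) := by
    unfold expect
    simp [Finsupp.sum]
  rw [h, expect_mul]
  refine expect_nonneg hμ fun a => expect_nonneg hν fun b => ?_
  split_ifs <;> simp

lemma nn_one : NN (1 : MonoidAlgebra ℝ G) := by
  rw [MonoidAlgebra.one_def]; exact nn_single zero_le_one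

lemma nn_pow {μ : MonoidAlgebra ℝ G} (hμ : NN μ) (n : ℕ) : NN (μ ^ n) := by
  induction n with
  | zero => rw [pow_zero]; exact nn_one
  | succ n ih => rw [pow_succ]; exact nn_mul ih hμ

lemma expect_const_pow {μ : MonoidAlgebra ℝ G} (hμ : expect μ (fun _ => 1) = 1) (n : ℕ) (c : ℝ) :
    expect (μ ^ n) (fun _ => c) = c := by
  have h1 : ∀ n : ℕ, expect (μ ^ n) (fun _ => (1 : ℝ)) = 1 := by
    intro n
    induction n with
    | zero => rw [pow_zero, expect_one]
    | succ n ih =>
      rw [pow_succ, expect_mul]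
      simp only [hμ]
      exact ih
  have := expect_fun_mul (μ ^ n) c (fun _ => 1)
  simp only [mul_one] at this
  rw [this, h1, mul_one]

end Pool.Agent.R235.BD
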