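import Pool.Agent.R235.BD.Lap
import Pool.Agent.R235.BD.Mat

set_option autoImplicit false

open MeasureTheory Filter Topology Laplacian Set Polynomial
open scoped ContDiff

namespace Pool.Agent.R235.BD

/-! ### Mahler measure of the cubic attached to a matrix -/

/-- The cubic polynomial attached to a matrix. -/
noncomputable def cubP (A : Matrix (Fin 2) (Fin 2) ℂ) : ℂ[X] :=
  C (A 0 1) + C (A 0 0) * X + C (A 1 1) * X ^ 2 + C (A 1 0) * X ^ 3

/-- Its values. -/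
noncomputable def cub (A : Matrix (Fin 2) (Fin 2) ℂ) (s : ℂ) : ℂ :=
  A 0 1 + A 0 0 * s + A 1 1 * s ^ 2 + A 1 0 * s ^ 3

lemma eval_cubP (A : Matrix (Fin 2) (Fin 2) ℂ) (s : ℂ) : (cubP A).eval s = cub A s := by
  simp [cubP, cub]

lemma natDegree_cubP (A : Matrix (Fin 2) (Fin 2) ℂ) : (cubP A).natDegree ≤ 3 := by
  unfold cubP
  compute_degree

lemma coeff_cubP (A : Matrix (Fin 2) (Fin 2) ℂ) :
    (cubP A).coeff 0 = A 0 1 ∧ (cubP A).coeff 1 = A 0 0 ∧ (cubP A).coeff 2 = A 1 1 ∧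
      (cubP A).coeff 3 = A 1 0 := by
  unfold cubP
  refine ⟨?_, ?_, ?_, ?_⟩ <;> simp [coeff_X, coeff_X_pow, coeff_C]

lemma choose_le {d n : ℕ} (hd : d ≤ 3) : (d.choose n : ℝ) ≤ 3 := by
  have : d.choose n ≤ 3 := by
    have h1 : d.choose n ≤ d.choose (d / 2) := Nat.choose_le_middle n d
    interval_cases d <;> simp_all [Nat.choose] <;> omega
  exact_mod_cast this

lemma norm_cub_le (A : Matrix (Fin 2) (Fin 2) ℂ) {s : ℂ} (hs : ‖s‖ = 1) :
    ‖cub A s‖ ≤ 4 * maxNorm A := by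
  unfold cub
  calc ‖A 0 1 + A 0 0 * s + A 1 1 * s ^ 2 + A 1 0 * s ^ 3‖
      ≤ ‖A 0 1‖ + ‖A 0 0 * s‖ + ‖A 1 1 * s ^ 2‖ + ‖A 1 0 * s ^ 3‖ := by
        refine (norm_add_le _ _).trans ?_
        gcongr
        refine (norm_add_le _ _).trans ?_
        gcongr
        exact norm_add_le _ _
    _ = ‖A 0 1‖ + ‖A 0 0‖ + ‖A 1 1‖ + ‖A 1 0‖ := by simp [norm_mul, norm_pow, hs]
    _ ≤ maxNorm A + maxNorm A + maxNorm A + maxNorm A := by
        gcongr <;> apply norm_entry_le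
    _ = _ := by ring

/-- The averaged logarithm. -/
noncomputable def NN1 (A : Matrix (Fin 2) (Fin 2) ℂ) : ℝ := (cubP A).logMahlerMeasure

lemma cubP_ne_zero (A : SL2C) : cubP A.1 ≠ 0 := by
  intro h
  have h1 := coeff_cubP A.1
  rw [h] at h1
  simp only [coeff_zero] at h1
  have h2 := maxNorm_pos A
  have h3 : maxNorm A.1 = 0 := by
    unfold maxNorm
    rw [← h1.1, ← h1.2.1, ← h1.2.2.1, ← h1.2.2.2]
    simp
  linarith

lemma NN1_ge (A : SL2C) : Real.log (maxNorm A.1) - Real.log 3 ≤ NN1 A.1 := by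
  have h0 := cubP_ne_zero A
  unfold NN1
  rw [logMahlerMeasure_eq_log_MahlerMeasure]
  have hpos := mahlerMeasure_pos_of_ne_zero h0
  have hc : ∀ n, ‖(cubP A.1).coeff n‖ ≤ 3 * (cubP A.1).mahlerMeasure := by
    intro n
    refine (norm_coeff_le_choose_mul_mahlerMeasure n _).trans ?_
    exact mul_le_mul_of_nonneg_right (choose_le (natDegree_cubP _)) hpos.le
  have h1 : maxNorm A.1 ≤ 3 * (cubP A.1).mahlerMeasure := by
    obtain ⟨c0, c1, c2, c3⟩ := coeff_cubP A.1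
    unfold maxNorm
    rw [← c0, ← c1, ← c2, ← c3]
    exact max_le (max_le (hc _) (hc _)) (max_le (hc _) (hc _))
  have h2 := Real.log_le_log (maxNorm_pos A) h1
  rw [Real.log_mul (by norm_num) hpos.ne'] at h2
  linarith

lemma NN1_eq (A : Matrix (Fin 2) (Fin 2) ℂ) :
    NN1 A = (2 * Real.pi)⁻¹ * ∫ θ in Ioc 0 (2 * Real.pi), Real.log ‖cub A (circleMap 0 1 θ)‖ := by
  unfold NN1
  rw [logMahlerMeasure_def, Real.circleAverage_def,
    intervalIntegral.integral_of_le (by positivity), smul_eq_mul]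
  simp only [eval_cubP]

lemma integrable_cub (A : Matrix (Fin 2) (Fin 2) ℂ) :
    IntegrableOn (fun θ => Real.log ‖cub A (circleMap 0 1 θ)‖) (Ioc 0 (2 * Real.pi)) := by
  have h := intervalIntegrable_mahlerMeasure (p := cubP A)
  rw [intervalIntegrable_iff_integrableOn_Ioc_of_le (by positivity)] at h
  simpa only [eval_cubP] using h

lemma log_cub_le (A : SL2C) {C0 : ℝ} (h : maxNorm A.1 ≤ C0) {s : ℂ} (hs : ‖s‖ = 1) :
    Real.log ‖cub A.1 s‖ ≤ Real.log 4 + |Real.log C0| := by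
  have hp := maxNorm_pos A
  by_cases h0 : cub A.1 s = 0
  · rw [h0]; simp only [norm_zero, Real.log_zero]
    have : 0 ≤ Real.log 4 := Real.log_nonneg (by norm_num)
    positivity
  have h1 : ‖cub A.1 s‖ ≤ 4 * C0 := (norm_cub_le A.1 hs).trans (by linarith)
  have h2 := Real.log_le_log (norm_pos_iff.mpr h0) h1
  rw [Real.log_mul (by norm_num) (by linarith)] at h2
  have := le_abs_self (Real.log C0)
  linarith

lemma ae_cub_ne_zero (A : SL2C) :
    ∀ᵐ θ ∂((volume : Measure ℝ).restrict (Ioc 0 (2 * Real.pi))), cub A.1 (circleMap 0 1 θ) ≠ 0 := by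
  have hc0 : cubP A.1 ≠ 0 := cubP_ne_zero A
  have hfin : {θ ∈ Ioc 0 (2 * Real.pi) | cub A.1 (circleMap 0 1 θ) = 0}.Finite := by
    have hinj : (Set.uIoc 0 (2 * Real.pi)).InjOn (circleMap 0 1) :=
      injOn_circleMap_of_abs_sub_le one_ne_zero (by
        rw [zero_sub, abs_neg, abs_of_pos (by positivity)])
    rw [uIoc_of_le (by positivity)] at hinj
    have hf : ((Ioc 0 (2 * Real.pi)) ∩
        (circleMap 0 1) ⁻¹' ((cubP A.1).roots.toFinset : Set ℂ)).Finite := by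
      have h3 : (InjOn (circleMap 0 1) ((Ioc 0 (2 * Real.pi)) ∩
        (circleMap 0 1) ⁻¹' ((cubP A.1).roots.toFinset : Set ℂ))) :=
          hinj.mono inter_subset_left
      refine Finite.of_finite_image ?_ h3
      refine ((cubP A.1).roots.toFinset.finite_toSet).subset ?_
      rintro _ ⟨θ, hθ, rfl⟩
      exact hθ.2
    refine hf.subset ?_
    rintro θ ⟨hθ, h0⟩
    refine ⟨hθ, ?_⟩
    have : (cubP A.1).eval (circleMap 0 1 θ) = 0 := by rw [eval_cubP]; exact h0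
    simp [hc0, this]
  rw [ae_restrict_iff' measurableSet_Ioc]
  have h1 : ∀ᵐ θ : ℝ, θ ∉ {θ ∈ Ioc 0 (2 * Real.pi) | cub A.1 (circleMap 0 1 θ) = 0} :=
    measure_eq_zero_iff_ae_notMem.mp (hfin.measure_zero volume)
  filter_upwards [h1] with θ hθ hθ2
  exact fun h => hθ ⟨hθ2, h⟩

lemma NN1_le (A : SL2C) : NN1 A.1 ≤ Real.log 4 + Real.log (maxNorm A.1) := by
  rw [NN1_eq]
  have hp := maxNorm_pos A
  have hc0 : cubP A.1 ≠ 0 := cubP_ne_zero A
  have hmono : ∫ θ in Ioc 0 (2 * Real.pi), Real.log ‖cub A.1 (circleMap 0 1 θ)‖ ≤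
      ∫ θ in Ioc 0 (2 * Real.pi), (Real.log 4 + Real.log (maxNorm A.1)) := by
    apply integral_mono_ae (integrable_cub A.1) (integrable_const _)
    filter_upwards [ae_cub_ne_zero A] with θ h0
    have h2 := norm_cub_le A.1 (s := circleMap 0 1 θ) (by simp)
    have h3 := Real.log_le_log (norm_pos_iff.mpr h0) h2
    rwa [Real.log_mul (by norm_num) hp.ne'] at h3
  rw [setIntegral_const] at hmono
  have h4 : (volume : Measure ℝ).real (Ioc 0 (2 * Real.pi)) = 2 * Real.pi := by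
    rw [Real.volume_real_Ioc_of_le (by positivity)]; ring
  rw [h4, smul_eq_mul] at hmono
  have h5 : (0 : ℝ) < 2 * Real.pi := by positivity
  rw [inv_mul_le_iff₀ h5]
  exact hmono

lemma integral_abs_cub_le (A : SL2C) {C0 : ℝ} (h : maxNorm A.1 ≤ C0) :
    ∫ θ in Ioc 0 (2 * Real.pi), |Real.log ‖cub A.1 (circleMap 0 1 θ)‖| ≤
      2 * Real.pi * (2 * (Real.log 4 + |Real.log C0|) + Real.log 2 + Real.log 3) := by
  have hK : 0 ≤ Real.log 4 + |Real.log C0| := by
    have : 0 ≤ Real.log 4 := Real.log_nonneg (by norm_num)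
    positivity
  have h5 : (0 : ℝ) < 2 * Real.pi := by positivity
  have h4 : (volume : Measure ℝ).real (Ioc 0 (2 * Real.pi)) = 2 * Real.pi := by
    rw [Real.volume_real_Ioc_of_le (by positivity)]; ring
  have hi := integrable_cub A.1
  have h1 : ∫ θ in Ioc 0 (2 * Real.pi), |Real.log ‖cub A.1 (circleMap 0 1 θ)‖| ≤
      ∫ θ in Ioc 0 (2 * Real.pi), (2 * (Real.log 4 + |Real.log C0|) -
        Real.log ‖cub A.1 (circleMap 0 1 θ)‖) := by
    apply integral_mono hi.abs ((integrable_const _).sub hi)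
    intro θ
    have h2 := log_cub_le A h (s := circleMap 0 1 θ) (by simp)
    simp only [Pi.sub_apply]
    rcases abs_cases (Real.log ‖cub A.1 (circleMap 0 1 θ)‖) with ⟨h3, _⟩ | ⟨h3, _⟩ <;> rw [h3] <;>
      linarith
  refine h1.trans ?_
  rw [integral_sub (integrable_const _) hi, setIntegral_const, h4, smul_eq_mul]
  have h6 := NN1_ge A
  rw [NN1_eq] at h6
  have h7 : -Real.log 2 ≤ Real.log (maxNorm A.1) := by
    have := log_pnorm_ge (toPSL A)
    rwa [pnorm_toPSL] at this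
  have h8 : 2 * Real.pi * (-Real.log 2 - Real.log 3) ≤
      ∫ θ in Ioc 0 (2 * Real.pi), Real.log ‖cub A.1 (circleMap 0 1 θ)‖ := by
    have h9 : -Real.log 2 - Real.log 3 ≤ (2 * Real.pi)⁻¹ *
      ∫ θ in Ioc 0 (2 * Real.pi), Real.log ‖cub A.1 (circleMap 0 1 θ)‖ := by linarith
    rw [← div_eq_inv_mul, le_div_iff₀ h5] at h9
    linarith
  linarith

end Pool.Agent.R235.BD
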