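import Pool.Agent.R235.BD.Fub

set_option autoImplicit false

open MeasureTheory Filter Topology Laplacian Set Polynomial
open scoped ContDiff

namespace Pool.Agent.R235.BD

/-- Functions that are Laurent polynomials away from `0`. -/
def Laur (f : ℂ → ℂ) : Prop := ∃ (P : ℂ[X]) (m : ℕ), ∀ q, q ≠ 0 → f q * q ^ m = P.eval q

lemma Laur.const (c : ℂ) : Laur fun _ => c := ⟨C c, 0, by simp⟩

lemma Laur.congr {f g : ℂ → ℂ} (hf : Laur f) (h : ∀ q, q ≠ 0 → g q = f q) : Laur g := by
  obtain ⟨P, m, hP⟩ := hf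
  exact ⟨P, m, fun q hq => by rw [h q hq]; exact hP q hq⟩

lemma Laur.id : Laur fun q => q := ⟨X, 0, by simp⟩

lemma Laur.inv : Laur fun q => q⁻¹ := ⟨1, 1, fun q hq => by simp [hq]⟩

lemma Laur.mul {f g : ℂ → ℂ} (hf : Laur f) (hg : Laur g) : Laur fun q => f q * g q := by
  obtain ⟨P, m, hP⟩ := hf
  obtain ⟨Q, n, hQ⟩ := hg
  refine ⟨P * Q, m + n, fun q hq => ?_⟩
  rw [eval_mul, ← hP q hq, ← hQ q hq]; ring

lemma Laur.add {f g : ℂ → ℂ} (hf : Laur f) (hg : Laur g) : Laur fun q => f q + g q := by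
  obtain ⟨P, m, hP⟩ := hf
  obtain ⟨Q, n, hQ⟩ := hg
  refine ⟨P * X ^ n + Q * X ^ m, m + n, fun q hq => ?_⟩
  simp only [eval_add, eval_mul, eval_pow, eval_X]
  rw [← hP q hq, ← hQ q hq]; ring

lemma Laur.neg {f : ℂ → ℂ} (hf : Laur f) : Laur fun q => -f q := by
  have := (Laur.const (-1)).mul hf
  simpa using this

lemma Laur.differentiableOn {f : ℂ → ℂ} (hf : Laur f) : DifferentiableOn ℂ f {0}ᶜ := by
  obtain ⟨P, m, hP⟩ := hf
  have h1 : DifferentiableOn ℂ (fun q => P.eval q / q ^ m) {0}ᶜ := by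
    apply DifferentiableOn.div
    · exact P.differentiable.differentiableOn
    · exact (differentiable_id.pow m).differentiableOn
    · intro q hq; exact pow_ne_zero _ hq
  refine h1.congr fun q hq => ?_
  rw [← hP q hq, mul_div_assoc, div_self (pow_ne_zero _ hq), mul_one]

lemma Laur.measurable {f : ℂ → ℂ} (hf : Laur f) : Measurable f :=
  measurable_of_continuousOn_compl_singleton 0 hf.differentiableOn.continuousOn

/-- `(1/2π)∫ log|f| Δφ = Σ_{f(z)=0} φ(z)` for a Laurent polynomial `f`, when `φ` vanishes at `0`. -/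
lemma int_log_laur {f : ℂ → ℂ} {P : ℂ[X]} {m : ℕ} (h : ∀ q, q ≠ 0 → f q * q ^ m = P.eval q)
    (hP : P ≠ 0) {φ : ℂ → ℝ} (hφ : ContDiff ℝ 2 φ) (hc : HasCompactSupport φ) (h0 : φ 0 = 0) :
    ∫ q, Real.log ‖f q‖ * Δ φ q = 2 * Real.pi * (P.roots.map φ).sum := by
  have h1 := integral_log_poly hφ hc P
  have h2 := integral_log_poly hφ hc (X : ℂ[X])
  have hfin : ({x : ℂ | P.eval x = 0}).Finite := by
    refine (P.roots.toFinset.finite_toSet).subset ?_
    intro x hx
    have hx2 : P.eval x = 0 := hx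
    simp [hP, hx2]
  have ha : ∀ᵐ x : ℂ, ¬ P.eval x = 0 := by
    rw [ae_iff]
    simpa using hfin.measure_zero volume
  have hb : ∀ᵐ x : ℂ, x ≠ 0 := by rw [ae_iff]; simp
  have hae : ∀ᵐ q : ℂ, Real.log ‖f q‖ * Δ φ q = Real.log ‖P.eval q‖ * Δ φ q -
      m * (Real.log ‖(X : ℂ[X]).eval q‖ * Δ φ q) := by
    filter_upwards [ha, hb] with q hq hq0
    have h3 := h q hq0
    have h4 : f q ≠ 0 := by
      intro h5
      rw [h5, zero_mul] at h3
      exact hq h3.symm
    rw [← h3, norm_mul, norm_pow, Real.log_mul (by simpa using h4) (pow_ne_zero _ (norm_ne_zero_iff.mpr hq0)),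
      Real.log_pow, eval_X]
    ring
  rw [integral_congr_ae hae, integral_sub h1.1 (h2.1.const_mul _), integral_const_mul, h1.2, h2.2]
  simp [h0]

/-- Integrability of bounded functions against the Laplacian of a test function. -/
lemma integrable_bdd {φ : ℂ → ℝ} (hφ : ContDiff ℝ 2 φ) (hc : HasCompactSupport φ) {F : ℂ → ℝ}
    (hF : Measurable F) {c : ℝ} (hb : ∀ q ∈ tsupport φ, |F q| ≤ c) :
    Integrable fun q => F q * Δ φ q := by
  have hi : Integrable fun q => c * |Δ φ q| :=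
    (((continuous_laplacian hφ).integrable_of_hasCompactSupport
      (hasCompactSupport_laplacian hφ hc)).abs).const_mul c
  refine hi.mono' (hF.mul (continuous_laplacian hφ).measurable).aestronglyMeasurable ?_
  refine Eventually.of_forall fun q => ?_
  rw [norm_mul, Real.norm_eq_abs, Real.norm_eq_abs]
  by_cases hq : q ∈ tsupport φ
  · exact mul_le_mul_of_nonneg_right (hb q hq) (abs_nonneg _)
  · have : Δ φ q = 0 := laplacian_zero_of_notMem hφ hq
    rw [this]; simp

end Pool.Agent.R235.BD
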