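import Pool.Agent.R235.BD.Fub2

set_option autoImplicit false

open MeasureTheory Filter Topology Laplacian Set Polynomial
open scoped ContDiff

namespace Pool.Agent.R235.BD

lemma continuousOn_maxNorm {M : ℂ → SL2C} (hM : ∀ i j, Laur (fun q => (M q).1 i j)) :
    ContinuousOn (fun q => maxNorm (M q).1) {0}ᶜ := by
  have h : ∀ i j, ContinuousOn (fun q => ‖(M q).1 i j‖) {0}ᶜ := fun i j =>
    (hM i j).differentiableOn.continuousOn.norm
  exact ContinuousOn.sup (ContinuousOn.sup (h 0 0) (h 0 1)) (ContinuousOn.sup (h 1 0) (h 1 1))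

lemma exists_bound_maxNorm {M : ℂ → SL2C} (hM : ∀ i j, Laur (fun q => (M q).1 i j)) {K : Set ℂ}
    (hK : IsCompact K) (h0 : (0 : ℂ) ∉ K) : ∃ C0 : ℝ, ∀ q ∈ K, maxNorm (M q).1 ≤ C0 := by
  have h1 : ContinuousOn (fun q => maxNorm (M q).1) K :=
    (continuousOn_maxNorm hM).mono fun q hq h => h0 (h ▸ hq)
  obtain ⟨c, hc⟩ := hK.exists_bound_of_continuousOn h1
  exact ⟨c, fun q hq => (le_abs_self _).trans (hc q hq)⟩

lemma measurable_maxNorm {M : ℂ → SL2C} (hM : ∀ i j, Laur (fun q => (M q).1 i j)) :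
    Measurable (fun q => maxNorm (M q).1) :=
  measurable_of_continuousOn_compl_singleton 0 (continuousOn_maxNorm hM)

lemma abs_log_maxNorm_le (A : SL2C) {C0 : ℝ} (h : maxNorm A.1 ≤ C0) :
    |Real.log (maxNorm A.1)| ≤ Real.log 2 + |Real.log C0| := by
  have h1 : -Real.log 2 ≤ Real.log (maxNorm A.1) := by
    have := log_pnorm_ge (toPSL A)
    rwa [pnorm_toPSL] at this
  have h2 := Real.log_le_log (maxNorm_pos A) h
  have h3 := le_abs_self (Real.log C0)
  have h4 := abs_nonneg (Real.log C0)
  have h5 : 0 < Real.log 2 := Real.log_pos (by norm_num)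
  rw [abs_le]
  constructor <;> linarith

lemma laur_cub {M : ℂ → SL2C} (hM : ∀ i j, Laur (fun q => (M q).1 i j)) (s : ℂ) :
    Laur fun q => cub (M q).1 s := by
  unfold cub
  exact (((hM 0 1).add ((hM 0 0).mul (Laur.const s))).add
    ((hM 1 1).mul (Laur.const (s ^ 2)))).add ((hM 1 0).mul (Laur.const (s ^ 3)))

theorem J_ge {M : ℂ → SL2C} (hM : ∀ i j, Laur (fun q => (M q).1 i j)) {φ : ℂ → ℝ}
    (hφ : ContDiff ℝ 2 φ) (hc : HasCompactSupport φ) (h0 : (0 : ℂ) ∉ tsupport φ) {S : ℝ}
    (hS : ∀ θ : ℝ, ∀ (P : ℂ[X]) (m : ℕ), P ≠ 0 →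
      (∀ q, q ≠ 0 → cub (M q).1 (circleMap 0 1 θ) * q ^ m = P.eval q) →
      S ≤ (P.roots.map φ).sum) :
    2 * Real.pi * S - Real.log 4 * ∫ q, |Δ φ q| ≤ ∫ q, Real.log (maxNorm (M q).1) * Δ φ q := by
  have hφ0 : φ 0 = 0 := image_eq_zero_of_notMem_tsupport h0
  have h2pi : (0 : ℝ) < 2 * Real.pi := by positivity
  obtain ⟨C0, hC0⟩ := exists_bound_maxNorm hM hc.isCompact h0
  set ν : Measure ℝ := (volume : Measure ℝ).restrict (Ioc 0 (2 * Real.pi)) with hν
  have hνreal : ν.real univ = 2 * Real.pi := by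
    rw [hν, measureReal_restrict_apply MeasurableSet.univ, univ_inter,
      Real.volume_real_Ioc_of_le (by positivity)]; ring
  have : IsFiniteMeasure ν := by rw [hν]; infer_instance
  let H : ℂ × ℝ → ℝ := fun p => Real.log ‖cub (M p.1).1 (circleMap 0 1 p.2)‖ * Δ φ p.1
  have hHm : Measurable H := by
    have he : ∀ i j, Measurable fun p : ℂ × ℝ => (M p.1).1 i j := fun i j =>
      (hM i j).measurable.comp measurable_fst
    have hs : Measurable fun p : ℂ × ℝ => circleMap 0 1 p.2 :=
      (continuous_circleMap 0 1).measurable.comp measurable_snd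
    have h1 : Measurable fun p : ℂ × ℝ => cub (M p.1).1 (circleMap 0 1 p.2) := by
      unfold cub
      exact (((he 0 1).add ((he 0 0).mul hs)).add ((he 1 1).mul (hs.pow_const 2))).add
        ((he 1 0).mul (hs.pow_const 3))
    exact (Real.measurable_log.comp h1.norm).mul
      ((continuous_laplacian hφ).measurable.comp measurable_fst)
  have hHi : Integrable H ((volume : Measure ℂ).prod ν) := by
    rw [integrable_prod_iff hHm.aestronglyMeasurable]
    constructor
    · refine Eventually.of_forall fun q => ?_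
      exact (integrable_cub (M q).1).mul_const (Δ φ q)
    · set C1 := 2 * Real.pi * (2 * (Real.log 4 + |Real.log C0|) + Real.log 2 + Real.log 3) with hC1
      have hg : Integrable fun q => C1 * |Δ φ q| :=
        (((continuous_laplacian hφ).integrable_of_hasCompactSupport
          (hasCompactSupport_laplacian hφ hc)).abs).const_mul C1
      refine hg.mono' ?_ ?_
      · exact hHm.aestronglyMeasurable.norm.integral_prod_right'
      · refine Eventually.of_forall fun q => ?_
        have h1 : ∫ θ, ‖H (q, θ)‖ ∂ν =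
            (∫ θ, |Real.log ‖cub (M q).1 (circleMap 0 1 θ)‖| ∂ν) * |Δ φ q| := by
          rw [← integral_mul_const]
          refine integral_congr_ae (Eventually.of_forall fun θ => ?_)
          simp only [H, norm_mul, Real.norm_eq_abs]
        rw [Real.norm_eq_abs, abs_of_nonneg (integral_nonneg fun θ => norm_nonneg _), h1]
        by_cases hq : q ∈ tsupport φ
        · exact mul_le_mul_of_nonneg_right (integral_abs_cub_le (M q) (hC0 q hq)) (abs_nonneg _)
        · rw [laplacian_zero_of_notMem hφ hq]; simp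
  have hswap : ∫ q : ℂ, ∫ θ, H (q, θ) ∂ν = ∫ θ, (∫ q : ℂ, H (q, θ)) ∂ν :=
    integral_integral_swap (f := fun q θ => H (q, θ)) hHi
  have hN : ∀ q, ∫ θ, H (q, θ) ∂ν = 2 * Real.pi * (NN1 (M q).1 * Δ φ q) := by
    intro q
    rw [NN1_eq]
    simp only [H]
    rw [integral_mul_const, ← hν]
    field_simp
  have hlow : ∫ θ : ℝ, (2 * Real.pi * S) ∂ν ≤ ∫ θ, (∫ q : ℂ, H (q, θ)) ∂ν := by
    apply integral_mono_ae (integrable_const _) hHi.integral_prod_right
    filter_upwards [ae_cub_ne_zero (M 1)] with θ hθ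
    obtain ⟨P, m, hP⟩ := laur_cub hM (circleMap 0 1 θ)
    have hP0 : P ≠ 0 := by
      rintro rfl
      have := hP 1 one_ne_zero
      simp at this
      exact hθ this
    have h3 := int_log_laur hP hP0 hφ hc hφ0
    simp only [H]
    rw [h3]
    exact mul_le_mul_of_nonneg_left (hS θ P m hP0 hP) h2pi.le
  rw [integral_const, hνreal, smul_eq_mul, ← hswap] at hlow
  simp only [hN] at hlow
  rw [integral_const_mul] at hlow
  have hlow2 : 2 * Real.pi * S ≤ ∫ q, NN1 (M q).1 * Δ φ q := le_of_mul_le_mul_left hlow h2pi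
  have hNi : Integrable fun q => NN1 (M q).1 * Δ φ q := by
    have := hHi.integral_prod_left
    simp only [hN] at this
    have h4 := this.const_mul (2 * Real.pi)⁻¹
    refine h4.congr (Eventually.of_forall fun q => ?_)
    simp only
    field_simp
  have hLi : Integrable fun q => Real.log (maxNorm (M q).1) * Δ φ q :=
    integrable_bdd hφ hc (Real.measurable_log.comp (measurable_maxNorm hM))
      (fun q hq => abs_log_maxNorm_le (M q) (hC0 q hq))
  have hdi : Integrable fun q => Real.log 4 * |Δ φ q| :=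
    (((continuous_laplacian hφ).integrable_of_hasCompactSupport
      (hasCompactSupport_laplacian hφ hc)).abs).const_mul _
  have hcmp : ∫ q, (NN1 (M q).1 * Δ φ q - Real.log 4 * |Δ φ q|) ≤
      ∫ q, Real.log (maxNorm (M q).1) * Δ φ q := by
    apply integral_mono (hNi.sub hdi) hLi
    intro q
    have h5 := NN1_ge (M q)
    have h6 := NN1_le (M q)
    have h7 : Real.log 3 ≤ Real.log 4 := Real.log_le_log (by norm_num) (by norm_num)
    have h8 : |NN1 (M q).1 - Real.log (maxNorm (M q).1)| ≤ Real.log 4 := by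
      rw [abs_le]; constructor <;> linarith
    have h9 : (NN1 (M q).1 - Real.log (maxNorm (M q).1)) * Δ φ q ≤ Real.log 4 * |Δ φ q| := by
      refine (le_abs_self _).trans ?_
      rw [abs_mul]
      exact mul_le_mul_of_nonneg_right h8 (abs_nonneg _)
    simp only [Pi.sub_apply]
    linarith
  rw [integral_sub hNi hdi, integral_const_mul] at hcmp
  linarith

end Pool.Agent.R235.BD
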