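import Pool.Agent.R235.BD.Ex

set_option autoImplicit false

open MeasureTheory Filter Topology Set Polynomial
open scoped LinearAlgebra.Projectivization Pointwise

namespace Pool.Agent.R235.BD

/-! ### Ping-pong at the parameter `5` -/

/-- ping-pong sets, in terms of the first column -/
def PX : Bool → Set SL2C
  | false => {A | 4 * ‖A.1 1 0‖ < ‖A.1 0 0‖}
  | true => {A | (9/5) * ‖A.1 0 0 - A.1 1 0‖ < ‖A.1 0 0 + A.1 1 0‖}

/-- ping-pong sets, in terms of the first column -/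
def PY : Bool → Set SL2C
  | false => {A | 4 * ‖A.1 0 0‖ < ‖A.1 1 0‖}
  | true => {A | (9/5) * ‖A.1 0 0 + A.1 1 0‖ < ‖A.1 0 0 - A.1 1 0‖}

lemma col_ne (A : SL2C) : ¬ (A.1 0 0 = 0 ∧ A.1 1 0 = 0) := by
  rintro ⟨h1, h2⟩
  have := A.2
  rw [Matrix.det_fin_two, h1, h2] at this
  simp at this

lemma tri1 {x y : ℂ} (h : 4 * ‖y‖ < ‖x‖) : ¬ ((9/5) * ‖x - y‖ < ‖x + y‖) ∧
    ¬ ((9/5) * ‖x + y‖ < ‖x - y‖) := by
  have h1 := norm_sub_norm_le x y
  have h2 : ‖x‖ - ‖y‖ ≤ ‖x + y‖ := by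
    have := norm_sub_norm_le x (-y)
    rwa [norm_neg, sub_neg_eq_add] at this
  have h3 := norm_add_le x y
  have h4 := norm_sub_le x y
  constructor <;> intro h5 <;> linarith

lemma norm_swap (x y : ℂ) : ‖y - x‖ = ‖x - y‖ := norm_sub_rev y x

lemma inj5 : Function.Injective (rep 5) := by
  have hSA : (SA 5).1 = !![5, 0; 0, 5⁻¹] := SA_coe (by norm_num)
  have hSAi : (SA 5)⁻¹.1 = !![5⁻¹, 0; 0, 5] := SAi_coe (by norm_num)
  have e : ∀ (g A : SL2C) (i : Fin 2), (g • A : SL2C).1 i 0 = g.1 i 0 * A.1 0 0 + g.1 i 1 * A.1 1 0 := by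
    intro g A i
    rw [smul_eq_mul, Matrix.SpecialLinearGroup.coe_mul, Matrix.mul_apply, Fin.sum_univ_two]
  have hn5 : ‖(5 : ℂ)‖ = 5 := by norm_num
  have hn5i : ‖(5⁻¹ : ℂ)‖ = 5⁻¹ := by rw [norm_inv, hn5]
  unfold rep
  apply FreeGroup.injective_lift_of_ping_pong (genM 5) PX PY
  · intro i
    cases i
    · exact ⟨1, by simp [PX]⟩
    · refine ⟨⟨!![1, 0; 1, 1], by simp [Matrix.det_fin_two]⟩, ?_⟩
      simp [PX]
  · intro i j hij
    cases i <;> cases j <;> simp only [ne_eq, not_true_eq_false] at hij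
    · refine Set.disjoint_left.mpr fun A h1 h2 => ?_
      exact (tri1 h1).1 h2
    · refine Set.disjoint_left.mpr fun A h2 h1 => ?_
      exact (tri1 h1).1 h2
  · intro i j hij
    cases i <;> cases j <;> simp only [ne_eq, not_true_eq_false] at hij
    · refine Set.disjoint_left.mpr fun A h1 h2 => ?_
      have := (tri1 h1).2
      rw [norm_swap, add_comm (A.1 1 0)] at this
      exact this h2
    · refine Set.disjoint_left.mpr fun A h2 h1 => ?_
      have := (tri1 h1).2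
      rw [norm_swap, add_comm (A.1 1 0)] at this
      exact this h2
  · intro i j
    cases i <;> cases j
    · refine Set.disjoint_left.mpr fun A h1 h2 => ?_
      have h1' : 4 * ‖A.1 1 0‖ < ‖A.1 0 0‖ := h1
      have h2' : 4 * ‖A.1 0 0‖ < ‖A.1 1 0‖ := h2
      have := norm_nonneg (A.1 0 0)
      linarith
    · refine Set.disjoint_left.mpr fun A h1 h2 => ?_
      exact (tri1 h1).2 h2
    · refine Set.disjoint_left.mpr fun A h2 h1 => ?_
      have := (tri1 h1).1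
      rw [norm_swap, add_comm (A.1 1 0)] at this
      exact this h2
    · refine Set.disjoint_left.mpr fun A h1 h2 => ?_
      have h1' : (9/5) * ‖A.1 0 0 - A.1 1 0‖ < ‖A.1 0 0 + A.1 1 0‖ := h1
      have h2' : (9/5) * ‖A.1 0 0 + A.1 1 0‖ < ‖A.1 0 0 - A.1 1 0‖ := h2
      have := norm_nonneg (A.1 0 0 - A.1 1 0)
      linarith
  · intro i
    rintro _ ⟨A, hA, rfl⟩
    cases i
    · have hA' : ¬ (4 * ‖A.1 0 0‖ < ‖A.1 1 0‖) := hA
      push Not at hA'
      have h0 : 0 < ‖A.1 0 0‖ := by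
        rw [norm_pos_iff]
        intro h
        rw [h, norm_zero, mul_zero] at hA'
        exact col_ne A ⟨h, norm_le_zero_iff.mp hA'⟩
      change 4 * ‖((SA 5) • A : SL2C).1 1 0‖ < ‖((SA 5) • A : SL2C).1 0 0‖
      rw [e, e, hSA]
      simp only [Matrix.of_apply, Matrix.cons_val', Matrix.cons_val_zero, Matrix.cons_val_one,
        Matrix.cons_val_fin_one, zero_mul, add_zero, zero_add, norm_mul, hn5, hn5i]
      linarith
    · have hA' : ¬ ((9/5) * ‖A.1 0 0 + A.1 1 0‖ < ‖A.1 0 0 - A.1 1 0‖) := hA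
      push Not at hA'
      have h0 : 0 < ‖A.1 0 0 + A.1 1 0‖ := by
        rw [norm_pos_iff]
        intro h
        rw [h, norm_zero, mul_zero] at hA'
        have h2 := norm_le_zero_iff.mp hA'
        exact col_ne A ⟨by linear_combination (h + h2) / 2, by linear_combination (h - h2) / 2⟩
      change (9/5) * ‖(SB • A : SL2C).1 0 0 - (SB • A : SL2C).1 1 0‖ <
        ‖(SB • A : SL2C).1 0 0 + (SB • A : SL2C).1 1 0‖
      rw [e, e, SB_coe]
      simp only [Matrix.of_apply, Matrix.cons_val', Matrix.cons_val_zero, Matrix.cons_val_one,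
        Matrix.cons_val_fin_one]
      have e1 : (5/4 * A.1 0 0 + 3/4 * A.1 1 0 - (3/4 * A.1 0 0 + 5/4 * A.1 1 0) : ℂ) =
          (1/2) * (A.1 0 0 - A.1 1 0) := by ring
      have e2 : (5/4 * A.1 0 0 + 3/4 * A.1 1 0 + (3/4 * A.1 0 0 + 5/4 * A.1 1 0) : ℂ) =
          2 * (A.1 0 0 + A.1 1 0) := by ring
      rw [e1, e2, norm_mul, norm_mul]
      norm_num
      linarith
  · intro i
    rintro _ ⟨A, hA, rfl⟩
    cases i
    · have hA' : ¬ (4 * ‖A.1 1 0‖ < ‖A.1 0 0‖) := hA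
      push Not at hA'
      have h0 : 0 < ‖A.1 1 0‖ := by
        rw [norm_pos_iff]
        intro h
        rw [h, norm_zero, mul_zero] at hA'
        exact col_ne A ⟨norm_le_zero_iff.mp hA', h⟩
      change 4 * ‖((SA 5)⁻¹ • A : SL2C).1 0 0‖ < ‖((SA 5)⁻¹ • A : SL2C).1 1 0‖
      rw [e, e, hSAi]
      simp only [Matrix.of_apply, Matrix.cons_val', Matrix.cons_val_zero, Matrix.cons_val_one,
        Matrix.cons_val_fin_one, zero_mul, add_zero, zero_add, norm_mul, hn5, hn5i]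
      linarith
    · have hA' : ¬ ((9/5) * ‖A.1 0 0 - A.1 1 0‖ < ‖A.1 0 0 + A.1 1 0‖) := hA
      push Not at hA'
      have h0 : 0 < ‖A.1 0 0 - A.1 1 0‖ := by
        rw [norm_pos_iff]
        intro h
        rw [h, norm_zero, mul_zero] at hA'
        have h2 := norm_le_zero_iff.mp hA'
        exact col_ne A ⟨by linear_combination (h + h2) / 2, by linear_combination (h2 - h) / 2⟩
      change (9/5) * ‖(SB⁻¹ • A : SL2C).1 0 0 + (SB⁻¹ • A : SL2C).1 1 0‖ <
        ‖(SB⁻¹ • A : SL2C).1 0 0 - (SB⁻¹ • A : SL2C).1 1 0‖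
      rw [e, e, SBi_coe]
      simp only [Matrix.of_apply, Matrix.cons_val', Matrix.cons_val_zero, Matrix.cons_val_one,
        Matrix.cons_val_fin_one]
      have e1 : (5/4 * A.1 0 0 + -(3/4) * A.1 1 0 + (-(3/4) * A.1 0 0 + 5/4 * A.1 1 0) : ℂ) =
          (1/2) * (A.1 0 0 + A.1 1 0) := by ring
      have e2 : (5/4 * A.1 0 0 + -(3/4) * A.1 1 0 - (-(3/4) * A.1 0 0 + 5/4 * A.1 1 0) : ℂ) =
          2 * (A.1 0 0 - A.1 1 0) := by ring
      rw [e1, e2, norm_mul, norm_mul]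
      norm_num
      linarith

end Pool.Agent.R235.BD
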