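import Pool.Agent.R235.BD.Count2

set_option autoImplicit false

open MeasureTheory Filter Topology Set Polynomial Laplacian
open scoped ContDiff

namespace Pool.Agent.R235.BD

/-- The measure: weight `17/20` at `a` and `1/20` at each of `a⁻¹, b, b⁻¹`. -/
noncomputable def mu : MonoidAlgebra ℝ (FreeGroup Bool) :=
  MonoidAlgebra.single (Ltr.a.val) (17/20) + MonoidAlgebra.single (Ltr.ai.val) (1/20) +
    MonoidAlgebra.single (Ltr.b.val) (1/20) + MonoidAlgebra.single (Ltr.bi.val) (1/20)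

lemma nn_mu : NN mu :=
  nn_add (nn_add (nn_add (nn_single (by norm_num)) (nn_single (by norm_num)))
    (nn_single (by norm_num))) (nn_single (by norm_num))

lemma expect_mu (F : FreeGroup Bool → ℝ) : expect mu F = 17/20 * F Ltr.a.val +
    1/20 * F Ltr.ai.val + 1/20 * F Ltr.b.val + 1/20 * F Ltr.bi.val := by
  unfold mu
  rw [expect_add, expect_add, expect_add, expect_single, expect_single, expect_single,
    expect_single]

lemma expect_mu_one : expect mu (fun _ => 1) = 1 := by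
  rw [expect_mu]; norm_num

lemma exp_lower (z : Ltr → ℝ) (n : ℕ) : ∀ (F : FreeGroup Bool → ℝ) (c : ℝ),
    (∀ L, c + (L.map z).sum ≤ F (ev L)) →
    c + n * (17/20 * z .a + 1/20 * z .ai + 1/20 * z .b + 1/20 * z .bi) ≤ expect (mu ^ n) F := by
  induction n with
  | zero =>
    intro F c h
    rw [pow_zero, expect_one]
    have := h []
    simpa [ev_nil] using this
  | succ n ih =>
    intro F c h
    rw [pow_succ', expect_mul, expect_mu]
    have hx : ∀ x : Ltr, (c + z x) + n * (17/20 * z .a + 1/20 * z .ai + 1/20 * z .b + 1/20 * z .bi) ≤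
        expect (mu ^ n) (fun h => F (x.val * h)) := by
      intro x
      apply ih
      intro L
      have := h (x :: L)
      rw [List.map_cons, List.sum_cons, ev_cons] at this
      linarith
    have ha := hx .a
    have hai := hx .ai
    have hb := hx .b
    have hbi := hx .bi
    push_cast
    linarith

lemma pnorm_rho (q : ℂ) (g : FreeGroup Bool) : pnorm (rho q g) = maxNorm (rep q g).1 :=
  pnorm_toPSL _

/-- the pairing of `log ‖ρ_q(g)‖` with the Laplacian of a test function -/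
noncomputable def J (φ : ℂ → ℝ) (g : FreeGroup Bool) : ℝ :=
  ∫ q, Real.log (pnorm (rho q g)) * Δ φ q

section test
variable {φ : ℂ → ℝ} (hφ : ContDiff ℝ 2 φ) (hc : HasCompactSupport φ) (h0 : (0 : ℂ) ∉ tsupport φ)
include hφ hc h0

lemma J_lower (hp : ∀ z, 0 ≤ φ z) (g : FreeGroup Bool) :
    -(Real.log 4 * ∫ q, |Δ φ q|) ≤ J φ g := by
  have := J_ge (laur_rep g) hφ hc h0 (S := 0) (fun θ P m _ _ => by
    apply Multiset.sum_nonneg
    intro x hx
    obtain ⟨y, _, rfl⟩ := Multiset.mem_map.mp hx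
    exact hp y)
  unfold J
  simp only [pnorm_rho]
  linarith

lemma J_lower_word (hp : ∀ z, 0 ≤ φ z)
    (h1 : ∀ θ ∈ Icc (1/2 : ℝ) (3/2), 1 ≤ φ (Complex.exp ((θ : ℂ) * Complex.I)))
    (L : List Ltr) :
    (-(2 * Real.pi) - Real.log 4 * ∫ q, |Δ φ q|) + (L.map fun x => 2 * dd x).sum ≤ J φ (ev L) := by
  have := J_ge (laur_rep (ev L)) hφ hc h0 (S := (L.map dd).sum / Real.pi - 1)
    (fun θ P m hP hPe => count_roots L θ P m hP hPe hp h1)
  unfold J
  simp only [pnorm_rho]
  have hpi := Real.pi_pos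
  rw [List.sum_map_mul_left]
  have e : 2 * Real.pi * ((L.map dd).sum / Real.pi - 1) = 2 * (L.map dd).sum - 2 * Real.pi := by
    field_simp
  rw [e] at this
  linarith

lemma integrable_log (g : FreeGroup Bool) :
    Integrable fun q => Real.log (pnorm (rho q g)) * Δ φ q := by
  obtain ⟨C0, hC0⟩ := exists_bound_maxNorm (laur_rep g) hc.isCompact h0
  simp only [pnorm_rho]
  exact integrable_bdd hφ hc (Real.measurable_log.comp (measurable_maxNorm (laur_rep g)))
      (fun q hq => abs_log_maxNorm_le (rep q g) (hC0 q hq))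

lemma int_expect (n : ℕ) :
    ∫ q, ((1 / (n : ℝ)) * uu mu (rho q) n) * Δ φ q = (1 / (n : ℝ)) * expect (mu ^ n) (J φ) := by
  have h1 : ∀ q, ((1 / (n : ℝ)) * uu mu (rho q) n) * Δ φ q = (1 / (n : ℝ)) *
      ∑ g ∈ (mu ^ n).coeff.support, (mu ^ n).coeff g * (Real.log (pnorm (rho q g)) * Δ φ q) := by
    intro q
    unfold uu expect Finsupp.sum
    rw [mul_assoc, Finset.sum_mul]
    congr 1
    apply Finset.sum_congr rfl
    intro g _
    ring
  simp only [h1]
  rw [integral_const_mul, integral_finsetSum]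
  · unfold expect Finsupp.sum J
    congr 1
    apply Finset.sum_congr rfl
    intro g _
    rw [integral_const_mul]
  · intro g _
    exact (integrable_log hφ hc h0 g).const_mul _

end test

/-- the Lyapunov exponent function -/
noncomputable def chi (q : ℂ) : ℝ := (exists_lyap nn_mu expect_mu_one (rho q)).choose

lemma chi_spec (q : ℂ) : IsLyapunovExponent mu (rho q) (chi q) :=
  (exists_lyap nn_mu expect_mu_one (rho q)).choose_spec

lemma measurable_log_pnorm (g : FreeGroup Bool) :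
    Measurable fun q => Real.log (pnorm (rho q g)) := by
  simp only [pnorm_rho]
  exact Real.measurable_log.comp (measurable_maxNorm (laur_rep g))

lemma measurable_uu (n : ℕ) : Measurable fun q => (1 / (n : ℝ)) * uu mu (rho q) n := by
  unfold uu expect Finsupp.sum
  refine Measurable.const_mul ?_ _
  exact Finset.measurable_sum _ fun g _ => (measurable_log_pnorm g).const_mul _

lemma measurable_chi : Measurable chi :=
  measurable_of_tendsto_metrizable measurable_uu (tendsto_pi_nhds.mpr fun q => chi_spec q)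

lemma exists_bound_uu {K : Set ℂ} (hK : IsCompact K) (h0 : (0 : ℂ) ∉ K) :
    ∃ C : ℝ, (∀ n : ℕ, ∀ q ∈ K, |(1 / (n : ℝ)) * uu mu (rho q) n| ≤ C) ∧ ∀ q ∈ K, |chi q| ≤ C := by
  have hb : ∀ g : FreeGroup Bool, ∃ C, ∀ q ∈ K, |Real.log (pnorm (rho q g))| ≤ C := by
    intro g
    obtain ⟨C0, hC0⟩ := exists_bound_maxNorm (laur_rep g) hK h0
    refine ⟨Real.log 2 + |Real.log C0|, fun q hq => ?_⟩
    rw [pnorm_rho]
    exact abs_log_maxNorm_le (rep q g) (hC0 q hq)
  choose B hB using hb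
  have h1 : ∀ q ∈ K, |uu mu (rho q) 1| ≤ 17/20 * B Ltr.a.val + 1/20 * B Ltr.ai.val +
      1/20 * B Ltr.b.val + 1/20 * B Ltr.bi.val := by
    intro q hq
    unfold uu
    rw [pow_one, expect_mu]
    have ha := abs_le.mp (hB Ltr.a.val q hq)
    have hai := abs_le.mp (hB Ltr.ai.val q hq)
    have hb := abs_le.mp (hB Ltr.b.val q hq)
    have hbi := abs_le.mp (hB Ltr.bi.val q hq)
    rw [abs_le]
    constructor <;> linarith [ha.1, ha.2, hai.1, hai.2, hb.1, hb.2, hbi.1, hbi.2]
  have h2 : ∀ n : ℕ, ∀ q ∈ K, |(1 / (n : ℝ)) * uu mu (rho q) n| ≤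
      Real.log 2 + (17/20 * B Ltr.a.val + 1/20 * B Ltr.ai.val +
      1/20 * B Ltr.b.val + 1/20 * B Ltr.bi.val) := fun n q hq =>
    (uu_div_abs_le nn_mu expect_mu_one (rho q) n).trans (by linarith [h1 q hq])
  refine ⟨_, h2, fun q hq => ?_⟩
  exact le_of_tendsto (chi_spec q).abs (Eventually.of_forall fun n => h2 n q hq)

lemma tendsto_pair {φ : ℂ → ℝ} (hφ : ContDiff ℝ 2 φ) (hc : HasCompactSupport φ)
    (h0 : (0 : ℂ) ∉ tsupport φ) :
    Tendsto (fun n : ℕ => (1 / (n : ℝ)) * expect (mu ^ n) (J φ)) atTop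
      (𝓝 (∫ q, chi q * Δ φ q)) := by
  obtain ⟨C, hC1, _⟩ := exists_bound_uu hc.isCompact h0
  simp only [← int_expect hφ hc h0]
  apply tendsto_integral_of_dominated_convergence (fun q => C * |Δ φ q|)
  · intro n
    exact ((measurable_uu n).mul (continuous_laplacian hφ).measurable).aestronglyMeasurable
  · exact (((continuous_laplacian hφ).integrable_of_hasCompactSupport
      (hasCompactSupport_laplacian hφ hc)).abs).const_mul C
  · intro n
    refine Eventually.of_forall fun q => ?_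
    rw [norm_mul, Real.norm_eq_abs, Real.norm_eq_abs]
    by_cases hq : q ∈ tsupport φ
    · exact mul_le_mul_of_nonneg_right (hC1 n q hq) (abs_nonneg _)
    · rw [laplacian_zero_of_notMem hφ hq]; simp
  · refine Eventually.of_forall fun q => ?_
    exact (chi_spec q).mul_const _

/-- `∫ χ Δφ ≥ 0` for `φ ≥ 0` -/
theorem pair_nonneg {φ : ℂ → ℝ} (hφ : ContDiff ℝ 2 φ) (hc : HasCompactSupport φ)
    (h0 : (0 : ℂ) ∉ tsupport φ) (hp : ∀ z, 0 ≤ φ z) : 0 ≤ ∫ q, chi q * Δ φ q := by
  have h1 := tendsto_pair hφ hc h0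
  set C := Real.log 4 * ∫ q, |Δ φ q| with hCdef
  have h2 : Tendsto (fun n : ℕ => -C / (n : ℝ)) atTop (𝓝 0) := tendsto_const_div_atTop_nhds_zero_nat _
  refine le_of_tendsto_of_tendsto' h2 h1 fun n => ?_
  have h3 := expect_mono (nn_pow nn_mu n) (F := fun _ => -C) (H := J φ) (J_lower hφ hc h0 hp)
  rw [expect_const_pow expect_mu_one] at h3
  rw [neg_div, one_div, div_eq_inv_mul, ← mul_neg]
  exact mul_le_mul_of_nonneg_left h3 (by positivity)

/-- `∫ χ Δφ ≥ 2π((4/5)/π - 1/10)` if moreover `φ ≥ 1` on the arc -/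
theorem pair_pos {φ : ℂ → ℝ} (hφ : ContDiff ℝ 2 φ) (hc : HasCompactSupport φ)
    (h0 : (0 : ℂ) ∉ tsupport φ) (hp : ∀ z, 0 ≤ φ z)
    (h1 : ∀ θ ∈ Icc (1/2 : ℝ) (3/2), 1 ≤ φ (Complex.exp ((θ : ℂ) * Complex.I))) :
    8/5 - Real.pi / 5 ≤ ∫ q, chi q * Δ φ q := by
  have h2 := tendsto_pair hφ hc h0
  set C := -(2 * Real.pi) - Real.log 4 * ∫ q, |Δ φ q| with hCdef
  have h3 : Tendsto (fun n : ℕ => C / (n : ℝ) + (8/5 - Real.pi / 5)) atTop
      (𝓝 (0 + (8/5 - Real.pi / 5))) := (tendsto_const_div_atTop_nhds_zero_nat _).add_const _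
  rw [zero_add] at h3
  refine le_of_tendsto_of_tendsto h3 h2 ?_
  filter_upwards [eventually_gt_atTop 0] with n hn
  have h4 := exp_lower (fun x => 2 * dd x) n (J φ) C (J_lower_word hφ hc h0 hp h1)
  simp only [dd] at h4
  have hn' : (0 : ℝ) < n := by exact_mod_cast hn
  rw [one_div, ← div_eq_inv_mul, le_div_iff₀ hn', add_mul, div_mul_cancel₀ _ hn'.ne']
  refine le_trans (le_of_eq ?_) h4
  ring

end Pool.Agent.R235.BD
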