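import Pool.Agent.R235.BD.Grp
import Pool.Agent.R235.BD.Pair

set_option autoImplicit false

open MeasureTheory Filter Topology Set Polynomial
open scoped LinearAlgebra.Projectivization Pointwise

namespace Pool.Agent.R235.BD

/-! ### generic faithfulness -/

lemma finite_trivial {w : FreeGroup Bool} (hw : w ≠ 1) :
    {q : ℂ | q ≠ 0 ∧ rho q w = 1}.Finite := by
  have hw2 : w * w ≠ 1 := by
    intro h
    apply hw
    have h2 : w ^ 2 = 1 ^ 2 := by rw [sq, h, one_pow]
    exact pow_left_injective (n := 2) (by norm_num) h2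
  have h5 : rep 5 (w * w) ≠ 1 := by
    intro h
    exact hw2 (inj5 (by rw [h, map_one]))
  have hij : ∃ i j, (rep 5 (w * w)).1 i j ≠ (1 : SL2C).1 i j := by
    by_contra hcon
    push Not at hcon
    exact h5 (Subtype.ext (by ext i j; exact hcon i j))
  obtain ⟨i, j, hij⟩ := hij
  obtain ⟨P, m, hP⟩ := (laur_rep (w * w) i j).add (Laur.const (-(1 : SL2C).1 i j))
  have hP0 : P ≠ 0 := by
    rintro rfl
    have := hP 5 (by norm_num)
    simp only [eval_zero, mul_eq_zero, pow_eq_zero_iff', ne_eq] at this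
    rcases this with h | h
    · exact hij (by linear_combination h)
    · norm_num at h
  refine (P.roots.toFinset.finite_toSet).subset ?_
  rintro q ⟨hq, hqw⟩
  have h1 : rep q (w * w) = 1 := by
    have h2 : toPSL (rep q w) = toPSL 1 := by
      rw [map_one]; exact hqw
    rw [toPSL_eq_iff] at h2
    apply Subtype.ext
    rw [map_mul, Matrix.SpecialLinearGroup.coe_mul]
    rcases h2 with h2 | h2 <;> rw [h2] <;> simp
  have h3 := hP q hq
  simp only [h1] at h3
  have h4 : P.eval q = 0 := by rw [← h3]; ring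
  simp [hP0, h4]

lemma countable_nonfaithful (U : Set ℂ) (hU : (0 : ℂ) ∉ U) :
    {q ∈ U | ¬ Function.Injective (rho q)}.Countable := by
  have hsub : {q ∈ U | ¬ Function.Injective (rho q)} ⊆
      ⋃ w ∈ {w : FreeGroup Bool | w ≠ 1}, {q : ℂ | q ≠ 0 ∧ rho q w = 1} := by
    rintro q ⟨hq, hni⟩
    rw [injective_iff_map_eq_one] at hni
    push Not at hni
    obtain ⟨w, hw, hw1⟩ := hni
    simp only [mem_iUnion]
    exact ⟨w, hw1, fun h => hU (h ▸ hq), hw⟩
  refine Countable.mono hsub ?_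
  have hc : Countable (FreeGroup Bool) := by
    have : Function.Surjective (FreeGroup.mk : List (Bool × Bool) → FreeGroup Bool) :=
      Quot.mk_surjective
    exact this.countable
  exact Countable.biUnion (Set.to_countable _) fun w hw => (finite_trivial hw).countable

/-! ### non-elementarity -/

lemma SB_pow (n : ℕ) : (SB ^ n).1 = !![((2:ℂ) ^ n + ((2:ℂ) ^ n)⁻¹) / 2, ((2:ℂ) ^ n - ((2:ℂ) ^ n)⁻¹) / 2;
    ((2:ℂ) ^ n - ((2:ℂ) ^ n)⁻¹) / 2, ((2:ℂ) ^ n + ((2:ℂ) ^ n)⁻¹) / 2] := by
  induction n with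
  | zero =>
    ext i j
    fin_cases i <;> fin_cases j <;> simp
  | succ n ih =>
    rw [pow_succ, Matrix.SpecialLinearGroup.coe_mul, ih, SB_coe]
    have h2 : (2 : ℂ) ^ n ≠ 0 := pow_ne_zero _ two_ne_zero
    ext i j
    fin_cases i <;> fin_cases j <;>
      simp [Matrix.mul_apply, Fin.sum_univ_two, pow_succ] <;> field_simp <;> ring

lemma not_bdd (q : ℂ) : ¬ BddAbove (Set.range fun g => pnorm (rho q g)) := by
  rintro ⟨C, hC⟩
  obtain ⟨n, hn⟩ := pow_unbounded_of_one_lt (2 * C) (by norm_num : (1 : ℝ) < 2)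
  have h1 : pnorm (rho q ((FreeGroup.of true) ^ n)) ≤ C := hC ⟨(FreeGroup.of true) ^ n, rfl⟩
  rw [pnorm_rho, map_pow] at h1
  have h2 : rep q (FreeGroup.of true) = SB := rep_b q
  rw [h2] at h1
  have h3 := norm_entry_le (SB ^ n).1 0 0
  rw [SB_pow] at h3
  simp only [Matrix.of_apply, Matrix.cons_val', Matrix.cons_val_zero,
        Matrix.cons_val_fin_one] at h3
  have h4 : (((2:ℂ) ^ n + ((2:ℂ) ^ n)⁻¹) / 2) = ((((2:ℝ) ^ n + ((2:ℝ) ^ n)⁻¹) / 2 : ℝ) : ℂ) := by
    push_cast; ring
  rw [← SB_pow, h4, Complex.norm_real, Real.norm_eq_abs, abs_of_pos (by positivity)] at h3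
  have h5 : (0:ℝ) < ((2:ℝ) ^ n)⁻¹ := by positivity
  linarith

/-- action of a lift on a line -/
lemma rho_smul_mk (q : ℂ) (g : FreeGroup Bool) (v : Fin 2 → ℂ) (hv : v ≠ 0) :
    rho q g • Projectivization.mk ℂ v hv =
      Projectivization.mk ℂ ((rep q g) • v) ((smul_ne_zero_iff_ne _).mpr hv) := rfl

lemma SL_smul_apply (A : SL2C) (v : Fin 2 → ℂ) (i : Fin 2) :
    (A • v) i = A.1 i 0 * v 0 + A.1 i 1 * v 1 := by
  rw [Matrix.SpecialLinearGroup.smul_def]
  change (A.1.mulVec v) i = _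
  rw [Matrix.mulVec, dotProduct, Fin.sum_univ_two]

/-- a line fixed by a positive power of `b` is one of two lines -/
lemma fixed_b {k : ℕ} (hk : 0 < k) {v : Fin 2 → ℂ} {c : ℂ} (h : (SB ^ k) • v = c • v) :
    v 0 ^ 2 = v 1 ^ 2 := by
  have h0 := congrFun h 0
  have h1 := congrFun h 1
  rw [SL_smul_apply, SB_pow] at h0 h1
  simp only [Matrix.of_apply, Matrix.cons_val', Matrix.cons_val_zero, Matrix.cons_val_one,
        Matrix.cons_val_fin_one, Pi.smul_apply, smul_eq_mul] at h0 h1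
  set S := ((2:ℂ) ^ k - ((2:ℂ) ^ k)⁻¹) / 2 with hS
  have hS0 : S ≠ 0 := by
    rw [hS]
    have h2 : (2 : ℂ) ^ k ≠ 0 := pow_ne_zero _ two_ne_zero
    intro h3
    have h4 : (2 : ℂ) ^ k * (2 : ℂ) ^ k = 1 := by
      field_simp at h3
      linear_combination h3
    have h5 : ((2 : ℝ) ^ k * 2 ^ k : ℝ) = 1 := by exact_mod_cast h4
    have h6 : (1 : ℝ) < 2 ^ k := one_lt_pow₀ (by norm_num) hk.ne'
    nlinarith
  have h2 : S * (v 0 ^ 2 - v 1 ^ 2) = 0 := by linear_combination v 0 * h1 - v 1 * h0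
  rcases mul_eq_zero.mp h2 with h3 | h3
  · exact absurd h3 hS0
  · linear_combination h3

/-- the open first quadrant -/
def Quad : Set ℂ := {z | 0 < z.re ∧ 0 < z.im}

lemma quad_pow4 {q : ℂ} (hq : q ∈ Quad) : q ^ 4 ≠ 1 := by
  intro h
  have him : 0 < (q ^ 2).im := by
    rw [sq, Complex.mul_im]
    have := mul_pos hq.1 hq.2
    nlinarith
  have h2 : (q ^ 2 - 1) * (q ^ 2 + 1) = 0 := by linear_combination h
  rcases mul_eq_zero.mp h2 with h3 | h3
  · have : q ^ 2 = 1 := by linear_combination h3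
    rw [this] at him; simp at him
  · have : q ^ 2 = -1 := by linear_combination h3
    rw [this] at him; simp at him

lemma infinite_orbit {q : ℂ} (hq : q ∈ Quad) (x : ℙ ℂ (Fin 2 → ℂ)) :
    (Set.range fun g => rho q g • x).Infinite := by
  intro hfin
  have hq0 : q ≠ 0 := by
    rintro rfl
    have := hq.1
    simp at this
  -- any orbit point has v0^2 = v1^2
  have key : ∀ (g : FreeGroup Bool) (v : Fin 2 → ℂ) (hv : v ≠ 0),
      rho q g • x = Projectivization.mk ℂ v hv → v 0 ^ 2 = v 1 ^ 2 := by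
    intro g v hv hgv
    have hmaps : Set.MapsTo (fun n : ℕ => rho q ((FreeGroup.of true) ^ n * g) • x) Set.univ
        (Set.range fun g => rho q g • x) := fun n _ => ⟨_, rfl⟩
    obtain ⟨m, _, n, _, hmn, heq⟩ := Set.infinite_univ.exists_lt_map_eq_of_mapsTo hmaps hfin
    simp only [map_mul, map_pow, mul_smul, hgv] at heq
    have h1 : (rho q (FreeGroup.of true)) ^ n = (rho q (FreeGroup.of true)) ^ m *
        (rho q (FreeGroup.of true)) ^ (n - m) := by rw [← pow_add]; congr 1; omega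
    rw [h1, mul_smul] at heq
    have h2 := MulAction.injective _ heq
    have h3 : (rho q (FreeGroup.of true)) ^ (n - m) • Projectivization.mk ℂ v hv =
        Projectivization.mk ℂ ((SB ^ (n - m)) • v) ((smul_ne_zero_iff_ne _).mpr hv) := by
      rw [← map_pow, rho_smul_mk]
      congr 1
      rw [map_pow]
      have : rep q (FreeGroup.of true) = SB := rep_b q
      rw [this]
    rw [h3, Projectivization.mk_eq_mk_iff'] at h2
    obtain ⟨c, hc⟩ := h2
    have hc0 : c ≠ 0 := by
      rintro rfl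
      rw [zero_smul] at hc
      exact hv hc.symm
    have h4 : (SB ^ (n - m)) • v = c⁻¹ • v := by
      rw [eq_inv_smul_iff₀ hc0]; exact hc
    exact fixed_b (by omega) h4
  induction x using Projectivization.ind with
  | h v hv =>
    have k1 := key 1 v hv (by rw [map_one, one_smul])
    have k2 := key (FreeGroup.of false) _ ((smul_ne_zero_iff_ne (rep q (FreeGroup.of false))).mpr hv)
      (rho_smul_mk q _ v hv)
    have h1 : rep q (FreeGroup.of false) = SA q := rep_a q
    rw [SL_smul_apply, SL_smul_apply, h1, SA_coe hq0] at k2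
    simp only [Matrix.of_apply, Matrix.cons_val', Matrix.cons_val_zero, Matrix.cons_val_one,
        Matrix.cons_val_fin_one, zero_mul, add_zero, zero_add] at k2
    have hv0 : v 0 ≠ 0 := by
      intro h
      rw [h] at k1
      have h2 : v 1 = 0 := by
        have : v 1 ^ 2 = 0 := by rw [← k1]; ring
        exact pow_eq_zero_iff (two_ne_zero) |>.mp this
      apply hv
      ext i
      fin_cases i
      · exact h
      · exact h2
    have h3 : (q ^ 4 - 1) * v 0 ^ 2 = 0 := by
      have h4 : q ^ 2 * v 0 ^ 2 = (q⁻¹) ^ 2 * v 1 ^ 2 := by linear_combination k2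
      rw [← k1] at h4
      have h5 : q ^ 2 * (q ^ 2 * v 0 ^ 2) = q ^ 2 * ((q⁻¹) ^ 2 * v 0 ^ 2) := by rw [h4]
      have h6 : q ^ 2 * ((q⁻¹) ^ 2 * v 0 ^ 2) = v 0 ^ 2 := by
        field_simp
      rw [h6] at h5
      linear_combination h5
    rcases mul_eq_zero.mp h3 with h4 | h4
    · exact quad_pow4 hq (by linear_combination h4)
    · exact hv0 (pow_eq_zero_iff (two_ne_zero) |>.mp h4)

end Pool.Agent.R235.BD
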