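import Pool.Agent.R235.BD.Riesz

set_option autoImplicit false

open MeasureTheory Filter Topology Set Laplacian
open scoped ContDiff

namespace Pool.Agent.R235.BD

theorem mass_ge {U : Set ℂ} (hU : IsOpen U) {χ : ℂ → ℝ} {T : Measure ℂ} (hT : IsDDc U χ T)
    {K : Set ℂ} (hK : IsCompact K) (hKU : K ⊆ U) {c : ℝ}
    (h : ∀ φ : ℂ → ℝ, ContDiff ℝ ∞ φ → HasCompactSupport φ → tsupport φ ⊆ U → (∀ z, 0 ≤ φ z) →
      (∀ z ∈ K, 1 ≤ φ z) → c ≤ ∫ z, χ z * Δ φ z) : c / (2 * Real.pi) ≤ (T K).toReal := by
  obtain ⟨_, hfin, hT⟩ := hT
  obtain ⟨V, hVo, hKV, hVU, hVc⟩ := exists_open_between_and_isCompact_closure hK hU hKU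
  have hopen : ∀ n : ℕ, IsOpen (V ∩ Metric.thickening (1 / ((n : ℝ) + 1)) K) := fun n =>
    hVo.inter Metric.isOpen_thickening
  have hsub : ∀ n : ℕ, K ⊆ V ∩ Metric.thickening (1 / ((n : ℝ) + 1)) K := fun n =>
    subset_inter hKV (Metric.self_subset_thickening (by positivity) K)
  choose ψ hψ hsupp hψ0 hψ1 hψK using fun n => exists_bump hK (hopen n) (hsub n)
  have htsub : ∀ n, tsupport (ψ n) ⊆ closure V := by
    intro n
    rw [tsupport, hsupp]
    exact closure_mono inter_subset_left
  have hcs : ∀ n, HasCompactSupport (ψ n) := fun n => hVc.of_isClosed_subset isClosed_closure (htsub n)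
  have hlim : Tendsto (fun n => ∫ z, ψ n z ∂T) atTop (𝓝 (∫ z, K.indicator (fun _ => (1 : ℝ)) z ∂T)) := by
    apply tendsto_integral_of_dominated_convergence ((closure V).indicator fun _ => (1 : ℝ))
    · intro n; exact (hψ n).continuous.aestronglyMeasurable
    · rw [integrable_indicator_iff isClosed_closure.measurableSet]
      exact integrableOn_const (hfin _ hVU hVc).ne
    · intro n
      refine Eventually.of_forall fun z => ?_
      rw [Real.norm_eq_abs, abs_of_nonneg (hψ0 n z)]
      by_cases hz : z ∈ closure V
      · rw [indicator_of_mem hz]; exact hψ1 n z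
      · rw [indicator_of_notMem hz, image_eq_zero_of_notMem_tsupport fun h => hz (htsub n h)]
    · refine Eventually.of_forall fun z => ?_
      by_cases hz : z ∈ K
      · rw [indicator_of_mem hz]
        refine tendsto_const_nhds.congr fun n => ?_
        exact (hψK n z hz).symm
      · rw [indicator_of_notMem hz]
        rcases K.eq_empty_or_nonempty with hemp | hne
        · refine tendsto_const_nhds.congr fun n => ?_
          by_contra hne
          have : z ∈ Function.support (ψ n) := fun h => hne h.symm
          rw [hsupp, hemp] at this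
          simp at this
        · have hpos : 0 < Metric.infDist z K := (hK.isClosed.notMem_iff_infDist_pos hne).mp hz
          obtain ⟨N, hN⟩ := exists_nat_one_div_lt hpos
          refine tendsto_atTop_of_eventually_const (i₀ := N) fun n hn => ?_
          by_contra hne'
          have h1 : z ∈ Function.support (ψ n) := hne'
          rw [hsupp] at h1
          have h2 := h1.2
          rw [Metric.mem_thickening_iff_infDist_lt hne] at h2
          have h3 : 1 / ((n : ℝ) + 1) ≤ 1 / ((N : ℝ) + 1) := by
            apply one_div_le_one_div_of_le (by positivity)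
            have : (N : ℝ) ≤ n := by exact_mod_cast hn
            linarith
          linarith
  have hKint : ∫ z, K.indicator (fun _ => (1 : ℝ)) z ∂T = (T K).toReal := by
    rw [integral_indicator hK.measurableSet, setIntegral_const, smul_eq_mul, mul_one]
    rfl
  rw [hKint] at hlim
  refine ge_of_tendsto' hlim fun n => ?_
  rw [hT (ψ n) (hψ n) (hcs n) ((htsub n).trans hVU)]
  have := h (ψ n) (hψ n) (hcs n) ((htsub n).trans hVU) (hψ0 n) (fun z hz => (hψK n z hz).ge)
  rw [div_eq_inv_mul, one_div]
  exact mul_le_mul_of_nonneg_left this (by positivity)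

end Pool.Agent.R235.BD
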