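import Pool.Agent.R235.BD.Grp2
import Pool.Agent.R235.BD.Mass

set_option autoImplicit false

open MeasureTheory Filter Topology Set Polynomial
open scoped LinearAlgebra.Projectivization Pointwise ContDiff

namespace Pool.Agent.R235.BD

lemma zero_notMem_quad : (0 : ℂ) ∉ Quad := by
  intro h; have := h.1; simp at this

lemma isOpen_quad : IsOpen Quad :=
  (isOpen_lt continuous_const Complex.continuous_re).inter
    (isOpen_lt continuous_const Complex.continuous_im)

lemma isConnected_quad : IsConnected Quad := by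
  have hconv : Convex ℝ Quad := by
    have h1 : Convex ℝ {z : ℂ | 0 < z.re} := convex_halfSpace_gt Complex.reLm.isLinear 0
    have h2 : Convex ℝ {z : ℂ | 0 < z.im} := convex_halfSpace_gt Complex.imLm.isLinear 0
    exact h1.inter h2
  exact hconv.isConnected ⟨1 + Complex.I, by simp [Quad]⟩

lemma holomorphic_rho (g : FreeGroup Bool) : HolomorphicPSL Quad fun z => rho z g := by
  intro z hz
  refine ⟨{0}ᶜ, isOpen_compl_singleton.mem_nhds (fun h => zero_notMem_quad (h ▸ hz)),
    fun w => rep w g, fun i j => (laur_rep g i j).differentiableOn, fun w _ => rfl⟩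

/-- traces of `a` at conjugate parameters -/
lemma trace_conj {z w : ℂ} (hz : z ≠ 0) (hw : w ≠ 0)
    (h : ∃ C : PSL2C, ∀ g, rho w g = C * rho z g * C⁻¹) :
    (w + w⁻¹) ^ 2 = (z + z⁻¹) ^ 2 := by
  obtain ⟨C, hC⟩ := h
  obtain ⟨D, rfl⟩ := toPSL_surj C
  have h1 := hC (FreeGroup.of false)
  have e : ∀ q, rep q (FreeGroup.of false) = SA q := rep_a
  have e2 : ∀ q, rho q (FreeGroup.of false) = toPSL (SA q) := fun q => by
    rw [← e q]; rfl
  rw [e2, e2, ← map_inv, ← map_mul, ← map_mul, toPSL_eq_iff] at h1
  have htr : (D * SA z * D⁻¹).1.trace = (SA z).1.trace := by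
    rw [Matrix.SpecialLinearGroup.coe_mul, Matrix.trace_mul_comm,
      ← Matrix.SpecialLinearGroup.coe_mul, ← mul_assoc, inv_mul_cancel, one_mul]
  have ht : ∀ q : ℂ, q ≠ 0 → (SA q).1.trace = q + q⁻¹ := by
    intro q hq
    rw [SA_coe hq, Matrix.trace_fin_two]
    simp
  rcases h1 with h1 | h1
  · rw [← ht w hw, ← ht z hz, h1, htr]
  · rw [← ht w hw, ← ht z hz, h1, Matrix.trace_neg, htr]; ring

lemma nonConj_rho : ∃ z ∈ Quad, ∃ w ∈ Quad, ¬ ∃ C : PSL2C, ∀ g, rho w g = C * rho z g * C⁻¹ := by
  refine ⟨1 + Complex.I, by simp [Quad], 2 + Complex.I, by simp [Quad], fun h => ?_⟩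
  have hz : (1 + Complex.I) ≠ 0 := by
    intro h; have := congrArg Complex.re h; simp at this
  have hw : (2 + Complex.I) ≠ 0 := by
    intro h; have := congrArg Complex.re h; simp at this
  have h1 := trace_conj hz hw h
  have e1 : (1 + Complex.I)⁻¹ = (1 - Complex.I) / 2 := by
    rw [inv_eq_iff_eq_inv, inv_div, eq_div_iff]
    · linear_combination (-1 : ℂ) * Complex.I_sq
    · intro h; have := congrArg Complex.re h; simp at this
  have e2 : (2 + Complex.I)⁻¹ = (2 - Complex.I) / 5 := by
    rw [inv_eq_iff_eq_inv, inv_div, eq_div_iff]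
    · linear_combination (-1 : ℂ) * Complex.I_sq
    · intro h; have := congrArg Complex.re h; simp at this
  rw [e1, e2] at h1
  have h2 := congrArg Complex.re h1
  simp [sq] at h2
  norm_num at h2

theorem family : IsHolomorphicFamily Quad rho where
  isOpen := isOpen_quad
  isConnected := isConnected_quad
  holomorphic := holomorphic_rho
  nonElementary := fun z hz => ⟨infinite_orbit hz, not_bdd z⟩
  faithful := countable_nonfaithful Quad zero_notMem_quad
  nonConj := nonConj_rho

lemma coeff_pos (x : Ltr) : 0 < mu.coeff x.val := by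
  classical
  have h : ∀ (y : Ltr) (c : ℝ), 0 < c → 0 ≤ (MonoidAlgebra.single y.val c).coeff x.val :=
    fun y c hc => nn_single hc.le _
  have h' : ∀ (c : ℝ), (MonoidAlgebra.single x.val c).coeff x.val = c := by
    intro c; rw [MonoidAlgebra.coeff_single, Finsupp.single_eq_same]
  unfold mu
  simp only [MonoidAlgebra.coeff_add, Finsupp.add_apply]
  have ha := h .a (17/20) (by norm_num)
  have hai := h .ai (1/20) (by norm_num)
  have hb := h .b (1/20) (by norm_num)
  have hbi := h .bi (1/20) (by norm_num)
  cases x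
  · rw [h' (17/20)]; linarith
  · rw [h' (1/20)]; linarith
  · rw [h' (1/20)]; linarith
  · rw [h' (1/20)]; linarith

theorem admissible_mu : Admissible mu where
  nonneg := nn_mu
  total := by
    have := expect_mu_one
    unfold expect at this
    simpa using this
  generates := by
    rw [eq_top_iff]
    intro g _
    have hmem : ∀ x : Ltr, x.val ∈ Subsemigroup.closure (mu.coeff.support : Set (FreeGroup Bool)) := by
      intro x
      apply Subsemigroup.subset_closure
      rw [Finset.mem_coe, Finsupp.mem_support_iff]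
      exact (coeff_pos x).ne'
    induction g using FreeGroup.induction_on with
    | C1 =>
      have := mul_mem (hmem .a) (hmem .ai)
      simpa [Ltr.val] using this
    | of x =>
      cases x
      · exact hmem .a
      · exact hmem .b
    | inv_of x _ =>
      cases x
      · exact hmem .ai
      · exact hmem .bi
    | mul x y hx hy => exact mul_mem (hx trivial) (hy trivial)

/-! ### the real locus -/

/-- the Cayley matrix -/
noncomputable def CM : SL2C := ⟨!![(1 - Complex.I) / 2, (1 - Complex.I) / 2;
  -(1 + Complex.I) / 2, (1 + Complex.I) / 2], by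
    rw [Matrix.det_fin_two_of]
    linear_combination (-(1:ℂ) / 2) * Complex.I_sq⟩

/-- real generators -/
noncomputable def genR (θ : ℝ) (i : Bool) : SL2R :=
  if i then ⟨!![2, 0; 0, 1/2], by norm_num [Matrix.det_fin_two]⟩
  else ⟨!![Real.cos θ, -Real.sin θ; Real.sin θ, Real.cos θ], by
    rw [Matrix.det_fin_two_of]
    have := Real.cos_sq_add_sin_sq θ
    linarith⟩

/-- real representation -/
noncomputable def repR (θ : ℝ) : FreeGroup Bool →* SL2R := FreeGroup.lift (genR θ)

lemma conj_real (θ : ℝ) (g : FreeGroup Bool) :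
    CM * rep (Complex.exp ((θ : ℂ) * Complex.I)) g * CM⁻¹ =
      (repR θ g).map (algebraMap ℝ ℂ) := by
  set q := Complex.exp ((θ : ℂ) * Complex.I) with hq
  have hq0 : q ≠ 0 := Complex.exp_ne_zero _
  have hqv : q = (Real.cos θ : ℂ) + (Real.sin θ : ℂ) * Complex.I := by
    rw [hq, Complex.exp_mul_I, Complex.ofReal_cos, Complex.ofReal_sin]
  have hqi : q⁻¹ = (Real.cos θ : ℂ) - (Real.sin θ : ℂ) * Complex.I := by
    rw [hq, ← Complex.exp_neg, ← neg_mul, Complex.exp_mul_I, Complex.cos_neg, Complex.sin_neg,
      Complex.ofReal_cos, Complex.ofReal_sin]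
    ring
  have hom : (MulAut.conj CM).toMonoidHom.comp (rep q) =
      (Matrix.SpecialLinearGroup.map (algebraMap ℝ ℂ)).comp (repR θ) := by
    apply FreeGroup.ext_hom
    intro i
    have h1 : rep q (FreeGroup.of i) = genM q i := by simp [rep]
    have h2 : repR θ (FreeGroup.of i) = genR θ i := by simp [repR]
    simp only [MonoidHom.comp_apply, h1, h2, MulEquiv.coe_toMonoidHom, MulAut.conj_apply]
    rw [mul_inv_eq_iff_eq_mul]
    apply Subtype.ext
    rw [Matrix.SpecialLinearGroup.coe_mul, Matrix.SpecialLinearGroup.coe_mul]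
    cases i
    · simp only [genM, genR, Bool.false_eq_true, if_false]
      rw [SA_coe hq0, hqv, ← hqv, hqi]
      ext k l
      fin_cases k <;> fin_cases l <;>
        simp [CM, Matrix.mul_apply, Fin.sum_univ_two, hqv] <;> ring_nf <;>
        simp [Complex.I_sq] <;> ring
    · simp only [genM, genR, if_true]
      rw [SB_coe]
      ext k l
      fin_cases k <;> fin_cases l <;>
        simp [CM, Matrix.mul_apply, Fin.sum_univ_two] <;> ring
  have := DFunLike.congr_fun hom g
  simpa using this

lemma mem_realLocus {θ : ℝ} (hθ : Complex.exp ((θ : ℂ) * Complex.I) ∈ Quad) :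
    Complex.exp ((θ : ℂ) * Complex.I) ∈ realLocus Quad rho := by
  refine ⟨hθ, toPSL CM, fun g => ⟨repR θ g, ?_⟩⟩
  rw [← conj_real, map_mul, map_mul, map_inv]
  rfl

end Pool.Agent.R235.BD
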