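import Pool.Agent.H314.CS.Dist

/-!
The fundamental solution of the Laplacian in the complex plane (adapted from the starting
files `Pool.Agent.H314.CS.Dist` and `Pool.Agent.Y80.EL.Log`), and the distributional
Laplacian of the logarithm of the modulus of a polynomial.
-/

set_option autoImplicit false

open MeasureTheory Laplacian InnerProductSpace Filter Topology Set

namespace Pool.Agent.R235.BD

open Pool.Agent.H314.CS

lemma fr2 : Module.finrank ℝ ℂ = 2 := Complex.finrank_real_complex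

/-- The kernel `(1/π)(1+|w|²)^{-2}`. -/
noncomputable def ker (w : ℂ) : ℝ := Real.pi⁻¹ * (1 + ‖w‖ ^ 2)⁻¹ ^ 2

lemma ker_nonneg (w : ℂ) : 0 ≤ ker w := by
  unfold ker; positivity

lemma integral_ker : ∫ w, ker w = 1 := by
  have h1 : ∫ y in Ioi (0 : ℝ), y * (1 + y ^ 2)⁻¹ ^ 2 = 1 / 2 := by
    have hd : ∀ x ∈ Ici (0 : ℝ), HasDerivAt (fun y : ℝ => -(1 / 2) * (1 + y ^ 2)⁻¹)
        (x * (1 + x ^ 2)⁻¹ ^ 2) x := by
      intro x _
      have h0 : (1 + x ^ 2) ≠ 0 := by positivity
      have h1 : HasDerivAt (fun y : ℝ => 1 + y ^ 2) (2 * x) x := by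
        have := (hasDerivAt_pow 2 x).const_add 1
        simpa using this
      have := (h1.inv h0).const_mul (-(1 / 2) : ℝ)
      refine this.congr_deriv ?_
      field_simp
    have ht : Tendsto (fun y : ℝ => -(1 / 2) * (1 + y ^ 2)⁻¹) atTop (𝓝 0) := by
      have h2 : Tendsto (fun y : ℝ => 1 + y ^ 2) atTop atTop :=
        tendsto_atTop_add_const_left _ _ (tendsto_pow_atTop (by norm_num))
      have := (tendsto_inv_atTop_zero.comp h2).const_mul (-(1 / 2) : ℝ)
      simpa using this
    have := integral_Ioi_of_hasDerivAt_of_nonneg (a := 0) (hd 0 (by simp)).continuousAt.continuousWithinAt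
      (fun x hx => hd x (mem_Ici.mpr (le_of_lt (mem_Ioi.mp hx)))) (fun x hx => by
        have : (0 : ℝ) < x := hx
        positivity) ht
    rw [this]; norm_num
  have h2 := integral_fun_norm_addHaar (volume : Measure ℂ) (fun y : ℝ => Real.pi⁻¹ * (1 + y ^ 2)⁻¹ ^ 2)
  have h3 : ∫ w, ker w = ∫ x : ℂ, (fun y : ℝ => Real.pi⁻¹ * (1 + y ^ 2)⁻¹ ^ 2) ‖x‖ := rfl
  rw [h3, h2]
  have h4 : (volume : Measure ℂ).real (Metric.ball 0 1) = Real.pi := by
    rw [Measure.real, Complex.volume_ball]; simp [Real.pi_nonneg]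
  rw [h4]
  have h5 : ∫ y in Ioi (0 : ℝ), y ^ (Module.finrank ℝ ℂ - 1) • (Real.pi⁻¹ * (1 + y ^ 2)⁻¹ ^ 2) =
      Real.pi⁻¹ * (1 / 2) := by
    rw [← h1, ← integral_const_mul]
    congr 1
    ext y
    simp [fr2]
    ring
  rw [h5]
  simp [fr2]

lemma tendsto_ker : Tendsto (fun x : ℂ => ‖x‖ ^ Module.finrank ℝ ℂ * ker x)
    (Bornology.cobounded ℂ) (𝓝 0) := by
  rw [fr2]
  have h0 : Tendsto (fun r : ℝ => Real.pi⁻¹ * (r ^ 2)⁻¹) atTop (𝓝 0) := by
    have := (tendsto_inv_atTop_zero.comp (tendsto_pow_atTop (α := ℝ) (n := 2) (by norm_num))).const_mul (Real.pi⁻¹)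
    simpa using this
  have h1 := h0.comp (tendsto_norm_cobounded_atTop (E := ℂ))
  refine squeeze_zero' (Eventually.of_forall fun x => ?_) ?_ h1
  · exact mul_nonneg (by positivity) (ker_nonneg x)
  · have : ∀ᶠ x : ℂ in Bornology.cobounded ℂ, 0 < ‖x‖ :=
      (tendsto_norm_cobounded_atTop (E := ℂ)).eventually_gt_atTop 0
    filter_upwards [this] with x hx
    simp only [Function.comp_apply, ker]
    rw [← mul_assoc, mul_comm (‖x‖ ^ 2), mul_assoc]
    refine mul_le_mul_of_nonneg_left ?_ (by positivity)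
    rw [inv_pow, ← div_eq_mul_inv, ← one_div, div_le_div_iff₀ (by positivity) (by positivity)]
    nlinarith [sq_nonneg (‖x‖ ^ 2)]

lemma locInt_log0 : LocallyIntegrable (fun z : ℂ => Real.log ‖z‖) := by
  rw [locallyIntegrable_iff]
  intro K hK
  obtain ⟨R, hR⟩ := hK.isBounded.subset_ball 0
  refine IntegrableOn.mono_set ?_ hR
  rw [integrableOn_fun_norm_addHaar (volume : Measure ℂ) (f := Real.log)]
  have : ContinuousOn (fun y : ℝ => y * Real.log y) (Icc 0 R) := Real.continuous_mul_log.continuousOn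
  have h := this.integrableOn_Icc (μ := volume)
  refine (h.mono_set Ioo_subset_Icc_self).congr_fun ?_ measurableSet_Ioo
  intro y _
  simp [fr2]

/-- The regularised logarithm. -/
noncomputable def Lc (c : ℝ) (z : ℂ) : ℝ := (1 / 2) * Real.log (‖z‖ ^ 2 + (c ^ 2)⁻¹)

lemma contDiff_Lc {c : ℝ} (hc : 0 < c) : ContDiff ℝ 2 (Lc c) := by
  unfold Lc
  refine contDiff_const.mul (ContDiff.log ?_ ?_)
  · exact (contDiff_norm_sq ℝ).add contDiff_const
  · intro x; positivity

lemma laplacian_Lc {c : ℝ} (hc : 0 < c) (z : ℂ) :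
    Δ (Lc c) z = 2 * Real.pi * (c ^ 2 * ker (c • z)) := by
  have h := LL.laplacian_comp_normSq (E := ℂ) (x := z) (U := fun s => (1 / 2) * Real.log (s + (c ^ 2)⁻¹))
    (U' := fun s => (1 / 2) * (s + (c ^ 2)⁻¹)⁻¹)
    (U'' := fun s => -(1 / 2) * ((s + (c ^ 2)⁻¹)⁻¹) ^ 2) ?_ ?_
  · have e : Lc c = fun y : ℂ => (fun s => (1 / 2) * Real.log (s + (c ^ 2)⁻¹)) (‖y‖ ^ 2) := rfl
    rw [e, h, fr2]
    simp only [ker, norm_smul, Real.norm_eq_abs, abs_of_pos hc]
    have h0 : (‖z‖ ^ 2 + (c ^ 2)⁻¹) ≠ 0 := by positivity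
    have h1 : 1 + (c * ‖z‖) ^ 2 ≠ 0 := by positivity
    have h2 : c ≠ 0 := hc.ne'
    have h3 : Real.pi ≠ 0 := Real.pi_ne_zero
    have h4 : (‖z‖ ^ 2 + (c ^ 2)⁻¹) = (1 + (c * ‖z‖) ^ 2) / c ^ 2 := by
      field_simp; ring
    rw [h4]
    field_simp
    push_cast
    ring
  · have : ∀ᶠ s in 𝓝 (‖z‖ ^ 2), 0 < s + (c ^ 2)⁻¹ := by
      have h1 : Continuous fun s : ℝ => s + (c ^ 2)⁻¹ := by fun_prop
      have h2 : 0 < ‖z‖ ^ 2 + (c ^ 2)⁻¹ := by positivity
      exact h1.continuousAt.eventually (lt_mem_nhds h2)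
    filter_upwards [this] with s hs
    have := ((hasDerivAt_id s).add_const ((c ^ 2)⁻¹)).log (by simpa using hs.ne')
    have := this.const_mul (1 / 2 : ℝ)
    simpa [one_div] using this
  · have h2 : ‖z‖ ^ 2 + (c ^ 2)⁻¹ ≠ 0 := by positivity
    have h3 : HasDerivAt (fun s : ℝ => s + (c ^ 2)⁻¹) 1 (‖z‖ ^ 2) :=
      (hasDerivAt_id (‖z‖ ^ 2)).add_const _
    have := (h3.inv h2).const_mul (1 / 2 : ℝ)
    refine this.congr_deriv ?_
    field_simp

/-- `Δ log|z| = 2π δ`. -/
lemma integral_log_laplacian {φ : ℂ → ℝ} (hφ : ContDiff ℝ 2 φ) (hc : HasCompactSupport φ) :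
    ∫ z : ℂ, Real.log ‖z‖ * Δ φ z = 2 * Real.pi * φ 0 := by
  have hΔc : Continuous (Δ φ) := by
    have : Δ φ = fun x => ∑ i, fderiv ℝ (fun y => fderiv ℝ φ y (stdOrthonormalBasis ℝ ℂ i)) x
      (stdOrthonormalBasis ℝ ℂ i) := by
      ext x; exact LL.laplacian_eq_sum_fderiv hφ x
    rw [this]
    refine continuous_finsetSum _ fun i _ => ?_
    exact ((LL.contDiff_dir hφ _).continuous_fderiv (by norm_num)).clm_apply continuous_const
  have hΔs : HasCompactSupport (Δ φ) := by
    have : Δ φ = fun x => ∑ i, fderiv ℝ (fun y => fderiv ℝ φ y (stdOrthonormalBasis ℝ ℂ i)) x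
      (stdOrthonormalBasis ℝ ℂ i) := by
      ext x; exact LL.laplacian_eq_sum_fderiv hφ x
    rw [this]
    refine HasCompactSupport.intro (K := tsupport φ) hc fun x hx => ?_
    refine Finset.sum_eq_zero fun i _ => ?_
    have h1 : x ∉ tsupport (fun y => fderiv ℝ φ y (stdOrthonormalBasis ℝ ℂ i)) :=
      fun h => hx (tsupport_fderiv_apply_subset ℝ _ h)
    rw [fderiv_of_notMem_tsupport _ h1]
    rfl
  have lim1 : Tendsto (fun c : ℝ => ∫ z, Lc c z * Δ φ z) atTop (𝓝 (2 * Real.pi * φ 0)) := by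
    have h := tendsto_integral_comp_smul_smul_of_integrable (μ := (volume : Measure ℂ))
      ker_nonneg integral_ker tendsto_ker
      (hφ.continuous.integrable_of_hasCompactSupport hc) hφ.continuous.continuousAt
    have h' := h.const_mul (2 * Real.pi)
    refine h'.congr' ?_
    filter_upwards [eventually_gt_atTop 0] with c hc0
    rw [LL.green (contDiff_Lc hc0) hφ hc, ← integral_const_mul]
    congr 1
    ext z
    rw [laplacian_Lc hc0, fr2]
    simp
    ring
  have lim2 : Tendsto (fun c : ℝ => ∫ z, Lc c z * Δ φ z) atTop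
      (𝓝 (∫ z : ℂ, Real.log ‖z‖ * Δ φ z)) := by
    apply tendsto_integral_filter_of_dominated_convergence
      (fun z => (|Real.log ‖z‖| + (1 / 2) * Real.log (‖z‖ ^ 2 + 1)) * |Δ φ z|)
    · filter_upwards [eventually_gt_atTop 0] with c hc0
      exact ((contDiff_Lc hc0).continuous.mul hΔc).aestronglyMeasurable
    · filter_upwards [eventually_ge_atTop 1] with c hc1
      have hz : ∀ᵐ z : ℂ, z ≠ 0 := by
        rw [ae_iff]; simp
      filter_upwards [hz] with z hz0
      rw [norm_mul, Real.norm_eq_abs, Real.norm_eq_abs]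
      refine mul_le_mul_of_nonneg_right ?_ (abs_nonneg _)
      have hzp : 0 < ‖z‖ := norm_pos_iff.mpr hz0
      have hcp : (0 : ℝ) < (c ^ 2)⁻¹ := by positivity
      have hcle : (c ^ 2)⁻¹ ≤ 1 := inv_le_one_of_one_le₀ (by nlinarith)
      have lo : Real.log ‖z‖ ≤ Lc c z := by
        have : Real.log ‖z‖ = (1 / 2) * Real.log (‖z‖ ^ 2) := by
          rw [Real.log_pow]; push_cast; ring
        rw [this, Lc]
        have := Real.log_le_log (x := ‖z‖ ^ 2) (y := ‖z‖ ^ 2 + (c ^ 2)⁻¹) (by positivity) (by linarith)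
        linarith
      have hi : Lc c z ≤ (1 / 2) * Real.log (‖z‖ ^ 2 + 1) := by
        rw [Lc]
        have := Real.log_le_log (x := ‖z‖ ^ 2 + (c ^ 2)⁻¹) (y := ‖z‖ ^ 2 + 1) (by positivity) (by linarith)
        linarith
      have h0 : 0 ≤ Real.log (‖z‖ ^ 2 + 1) := Real.log_nonneg (by nlinarith)
      rw [abs_le]
      constructor
      · have := neg_abs_le (Real.log ‖z‖)
        linarith
      · have := abs_nonneg (Real.log ‖z‖)
        linarith
    · have i1 : Integrable (fun z : ℂ => |Real.log ‖z‖| * |Δ φ z|) := by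
        have := (locInt_log0.integrable_smul_right_of_hasCompactSupport hΔc hΔs).norm
        simpa [norm_mul] using this
      have i2 : Integrable (fun z : ℂ => (1 / 2) * Real.log (‖z‖ ^ 2 + 1) * |Δ φ z|) := by
        refine Continuous.integrable_of_hasCompactSupport ?_ ?_
        · refine Continuous.mul (continuous_const.mul (Continuous.log (by fun_prop) ?_)) hΔc.abs
          intro x; positivity
        · exact (hΔs.comp_left (g := fun t : ℝ => |t|) (by simp)).mul_left
      refine (i1.add i2).congr (Eventually.of_forall fun z => ?_)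
      simp only [Pi.add_apply]
      ring
    · have hz : ∀ᵐ z : ℂ, z ≠ 0 := by
        rw [ae_iff]; simp
      filter_upwards [hz] with z hz0
      refine Tendsto.mul_const _ ?_
      have hzp : 0 < ‖z‖ := norm_pos_iff.mpr hz0
      have e : Real.log ‖z‖ = (1 / 2) * Real.log (‖z‖ ^ 2 + 0) := by
        rw [add_zero, Real.log_pow]; push_cast; ring
      rw [e]
      refine Tendsto.const_mul _ (Tendsto.log ?_ (by positivity))
      refine Tendsto.const_add _ ?_
      exact tendsto_inv_atTop_zero.comp (tendsto_pow_atTop (by norm_num))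
  exact tendsto_nhds_unique lim2 lim1

lemma continuous_laplacian {φ : ℂ → ℝ} (hφ : ContDiff ℝ 2 φ) : Continuous (Δ φ) := by
  have : Δ φ = fun x => ∑ i, fderiv ℝ (fun y => fderiv ℝ φ y (stdOrthonormalBasis ℝ ℂ i)) x
    (stdOrthonormalBasis ℝ ℂ i) := by
    ext x; exact LL.laplacian_eq_sum_fderiv hφ x
  rw [this]
  refine continuous_finsetSum _ fun i _ => ?_
  exact ((LL.contDiff_dir hφ _).continuous_fderiv (by norm_num)).clm_apply continuous_const

lemma hasCompactSupport_laplacian {φ : ℂ → ℝ} (hφ : ContDiff ℝ 2 φ) (hc : HasCompactSupport φ) :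
    HasCompactSupport (Δ φ) := by
  have : Δ φ = fun x => ∑ i, fderiv ℝ (fun y => fderiv ℝ φ y (stdOrthonormalBasis ℝ ℂ i)) x
    (stdOrthonormalBasis ℝ ℂ i) := by
    ext x; exact LL.laplacian_eq_sum_fderiv hφ x
  rw [this]
  refine HasCompactSupport.intro (K := tsupport φ) hc fun x hx => ?_
  refine Finset.sum_eq_zero fun i _ => ?_
  have h1 : x ∉ tsupport (fun y => fderiv ℝ φ y (stdOrthonormalBasis ℝ ℂ i)) :=
    fun h => hx (tsupport_fderiv_apply_subset ℝ _ h)
  rw [fderiv_of_notMem_tsupport _ h1]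
  rfl


theorem log_translate (p : ℂ) {φ : ℂ → ℝ}
    (hφ : ContDiff ℝ 2 φ) (hc : HasCompactSupport φ) :
    ∫ x, Real.log ‖x - p‖ * Δ φ x = 2 * Real.pi * φ p := by
  have hφ' : ContDiff ℝ 2 (fun y => φ (y + p)) := hφ.comp (contDiff_id.add contDiff_const)
  have hc' : HasCompactSupport (fun y => φ (y + p)) :=
    hc.comp_homeomorph (Homeomorph.addRight p)
  have h1 := integral_log_laplacian hφ' hc'
  have h2 : ∀ y, Δ (fun y => φ (y + p)) y = Δ φ (y + p) := by
    intro y
    rw [LL.laplacian_eq_sum_fderiv hφ', LL.laplacian_eq_sum_fderiv hφ]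
    apply Finset.sum_congr rfl
    intro i _
    have e1 : (fun y => fderiv ℝ (fun y => φ (y + p)) y (stdOrthonormalBasis ℝ
        (ℂ) i)) = fun y => (fun z => fderiv ℝ φ z (stdOrthonormalBasis ℝ
        (ℂ) i)) (y + p) := by
      funext y
      rw [fderiv_comp_add_right]
    have e2 := fderiv_comp_add_right (𝕜 := ℝ) (f := fun z => fderiv ℝ φ z (stdOrthonormalBasis ℝ
        (ℂ) i)) (x := y) p
    rw [e1]
    exact congrArg (fun L => L (stdOrthonormalBasis ℝ (ℂ) i)) e2
  simp only [h2, zero_add] at h1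
  have h3 := integral_sub_right_eq_self (μ := (volume : Measure (ℂ)))
    (fun y => Real.log ‖y‖ * Δ φ (y + p)) p
  simp only [sub_add_cancel] at h3
  rw [h3]
  exact h1



lemma laplacian_zero_of_notMem {φ : ℂ → ℝ} (hφ : ContDiff ℝ 2 φ) {x : ℂ} (hx : x ∉ tsupport φ) :
    Δ φ x = 0 := by
  rw [LL.laplacian_eq_sum_fderiv hφ]
  refine Finset.sum_eq_zero fun i _ => ?_
  have h1 : x ∉ tsupport (fun y => fderiv ℝ φ y (stdOrthonormalBasis ℝ ℂ i)) :=
    fun h => hx (tsupport_fderiv_apply_subset ℝ _ h)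
  rw [fderiv_of_notMem_tsupport _ h1]
  rfl

lemma integral_laplacian_zero {φ : ℂ → ℝ} (hφ : ContDiff ℝ 2 φ) (hc : HasCompactSupport φ) :
    ∫ x, Δ φ x = 0 := by
  have h := LL.green (v := fun _ : ℂ => (1 : ℝ)) contDiff_const hφ hc
  have h2 : ∀ x : ℂ, Δ (fun _ : ℂ => (1 : ℝ)) x = 0 := by
    intro x
    rw [LL.laplacian_eq_sum_fderiv contDiff_const]
    simp
  simpa [h2] using h

lemma integrable_log_laplacian (p : ℂ) {φ : ℂ → ℝ}
    (hφ : ContDiff ℝ 2 φ) (hc : HasCompactSupport φ) :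
    Integrable (fun x => Real.log ‖x - p‖ * Δ φ x) := by
  have h0 : LocallyIntegrable (fun z : ℂ => Real.log ‖z - p‖) := by
    have hK : ∀ K : Set ℂ, IsCompact K → IntegrableOn (fun z : ℂ => Real.log ‖z - p‖) K := by
      intro K hK
      have h1 : IsCompact ((fun z : ℂ => z - p) '' K) := hK.image (by fun_prop)
      have h2 := (locallyIntegrable_iff.mp locInt_log0) _ h1
      have h3 := (measurePreserving_sub_right (volume : Measure ℂ) p).integrableOn_comp_preimage
        (MeasurableEquiv.subRight p).measurableEmbedding (f := fun z : ℂ => Real.log ‖z‖)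
        (s := (fun z : ℂ => z - p) '' K)
      have h4 := h3.mpr h2
      refine h4.mono_set ?_
      exact subset_preimage_image _ _
    exact locallyIntegrable_iff.mpr hK
  have := h0.integrable_smul_right_of_hasCompactSupport (continuous_laplacian hφ)
    (hasCompactSupport_laplacian hφ hc)
  simpa [smul_eq_mul] using this

/-- sums over roots -/
lemma integral_multiset_log {φ : ℂ → ℝ} (hφ : ContDiff ℝ 2 φ) (hc : HasCompactSupport φ)
    (s : Multiset ℂ) :
    Integrable (fun x => (s.map fun p => Real.log ‖x - p‖).sum * Δ φ x) ∧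
    ∫ x, (s.map fun p => Real.log ‖x - p‖).sum * Δ φ x = 2 * Real.pi * (s.map φ).sum := by
  induction s using Multiset.induction_on with
  | empty => simp
  | cons p s ih =>
    have e : (fun x => ((p ::ₘ s).map fun p => Real.log ‖x - p‖).sum * Δ φ x) =
        fun x => Real.log ‖x - p‖ * Δ φ x + (s.map fun p => Real.log ‖x - p‖).sum * Δ φ x := by
      funext x
      simp [add_mul]
    rw [e]
    refine ⟨(integrable_log_laplacian p hφ hc).add ih.1, ?_⟩
    rw [integral_add (integrable_log_laplacian p hφ hc) ih.1, ih.2, log_translate p hφ hc]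
    simp
    ring

lemma log_prod_sub (x : ℂ) (s : Multiset ℂ) (hne : ∀ r ∈ s, x - r ≠ 0) :
    Real.log ‖(s.map fun r => x - r).prod‖ = (s.map fun p => Real.log ‖x - p‖).sum := by
  induction s using Multiset.induction_on with
  | empty => simp
  | cons a s ih =>
    have h1 : x - a ≠ 0 := hne a (Multiset.mem_cons_self a s)
    have h2 : ∀ r ∈ s, x - r ≠ 0 := fun r hr => hne r (Multiset.mem_cons_of_mem hr)
    have h3 : (s.map fun r => x - r).prod ≠ 0 := by
      rw [Ne, Multiset.prod_eq_zero_iff]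
      intro h
      obtain ⟨r, hr, hr0⟩ := Multiset.mem_map.1 h
      exact h2 r hr hr0
    rw [Multiset.map_cons, Multiset.prod_cons, norm_mul,
      Real.log_mul (by simpa using h1) (by simpa using h3), ih h2, Multiset.map_cons,
      Multiset.sum_cons]

/-- `(1/2π) ∫ log|P| Δφ = Σ_{P(z)=0} φ(z)` for every polynomial `P`. -/
theorem integral_log_poly {φ : ℂ → ℝ} (hφ : ContDiff ℝ 2 φ) (hc : HasCompactSupport φ)
    (P : Polynomial ℂ) :
    Integrable (fun x => Real.log ‖P.eval x‖ * Δ φ x) ∧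
    ∫ x, Real.log ‖P.eval x‖ * Δ φ x = 2 * Real.pi * (P.roots.map φ).sum := by
  by_cases hP : P = 0
  · subst hP; simp
  have hsplit := IsAlgClosed.splits P
  have hev : ∀ x, P.eval x = P.leadingCoeff * (P.roots.map fun r => x - r).prod := by
    intro x
    conv_lhs => rw [hsplit.eq_prod_roots]
    rw [Polynomial.eval_mul, Polynomial.eval_C, Polynomial.eval_multiset_prod]
    simp [Multiset.map_map, Function.comp_def]
  have hae : ∀ᵐ x : ℂ, Real.log ‖P.eval x‖ * Δ φ x =
      Real.log ‖P.leadingCoeff‖ * Δ φ x + (P.roots.map fun p => Real.log ‖x - p‖).sum * Δ φ x := by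
    have hfin : ({x : ℂ | P.eval x = 0}).Finite := by
      refine (P.roots.toFinset.finite_toSet).subset ?_
      intro x hx
      have hx2 : P.eval x = 0 := hx
      simp [hP, hx2]
    have h0 : ∀ᵐ x : ℂ, ¬ P.eval x = 0 := by
      rw [ae_iff]
      simpa using hfin.measure_zero volume
    filter_upwards [h0] with x hx
    rw [← add_mul]
    congr 1
    have hprod : (P.roots.map fun r => x - r).prod ≠ 0 := by
      intro h
      exact hx (by rw [hev, h, mul_zero])
    rw [hev x, norm_mul, Real.log_mul (by simpa using hP) (by simpa using hprod)]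
    congr 1
    have hne : ∀ r ∈ P.roots, x - r ≠ 0 := by
      intro r hr h
      exact hprod (Multiset.prod_eq_zero (by rw [← h]; exact Multiset.mem_map_of_mem _ hr))
    exact log_prod_sub x P.roots hne
  have hm := integral_multiset_log hφ hc P.roots
  have hcst : Integrable (fun x => Real.log ‖P.leadingCoeff‖ * Δ φ x) :=
    ((continuous_laplacian hφ).integrable_of_hasCompactSupport
      (hasCompactSupport_laplacian hφ hc)).const_mul _
  have hI := hcst.add hm.1
  refine ⟨hI.congr ?_, ?_⟩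
  · filter_upwards [hae] with x hx
    rw [hx]
    rfl
  · rw [integral_congr_ae hae, integral_add hcst hm.1, hm.2, integral_const_mul,
      integral_laplacian_zero hφ hc]
    ring

end Pool.Agent.R235.BD
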