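import Pool.Agent.R235.BD.Lap
import Pool.Agent.R235.BD.Defs

set_option autoImplicit false

open MeasureTheory Filter Topology Set Laplacian
open scoped ContDiff CompactlySupported

namespace Pool.Agent.R235.BD

/-- smooth bump with prescribed support -/
lemma exists_bump {K V : Set ℂ} (hK : IsCompact K) (hV : IsOpen V) (hKV : K ⊆ V) :
    ∃ ψ : ℂ → ℝ, ContDiff ℝ ∞ ψ ∧ Function.support ψ = V ∧ (∀ z, 0 ≤ ψ z) ∧ (∀ z, ψ z ≤ 1) ∧
      ∀ z ∈ K, ψ z = 1 := by
  obtain ⟨f, hf, hr, hs, h1⟩ := exists_contMDiff_support_eq_eq_one_iff (n := (⊤ : ℕ∞))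
    (modelWithCornersSelf ℝ ℂ) hV hK.isClosed hKV
  refine ⟨f, contMDiff_iff_contDiff.mp hf, hs, fun z => (hr ⟨z, rfl⟩).1, fun z => (hr ⟨z, rfl⟩).2,
    fun z hz => (h1 z).mp hz⟩

section ext
variable {U : Set ℂ}

/-- extension by zero -/
noncomputable def ex (f : C_c(↥U, ℝ)) (z : ℂ) : ℝ := by
  classical
  exact if h : z ∈ U then f ⟨z, h⟩ else 0

lemma ex_mem (f : C_c(↥U, ℝ)) {z : ℂ} (h : z ∈ U) : ex f z = f ⟨z, h⟩ := by
  simp [ex, h]

lemma ex_notMem (f : C_c(↥U, ℝ)) {z : ℂ} (h : z ∉ U) : ex f z = 0 := by
  simp [ex, h]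

lemma ex_add (f g : C_c(↥U, ℝ)) : ex (f + g) = ex f + ex g := by
  funext z
  by_cases h : z ∈ U
  · simp [ex_mem _ h]
  · simp [ex_notMem _ h]

lemma ex_smul (c : ℝ) (f : C_c(↥U, ℝ)) : ex (c • f) = c • ex f := by
  funext z
  by_cases h : z ∈ U
  · simp [ex_mem _ h]
  · simp [ex_notMem _ h]

lemma ex_zero : ex (0 : C_c(↥U, ℝ)) = 0 := by
  funext z
  by_cases h : z ∈ U
  · simp [ex_mem _ h]
  · simp [ex_notMem _ h]

lemma support_ex (f : C_c(↥U, ℝ)) : Function.support (ex f) ⊆ (Subtype.val '' tsupport f) := by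
  intro z hz
  by_cases h : z ∈ U
  · refine ⟨⟨z, h⟩, subset_tsupport _ ?_, rfl⟩
    rw [Function.mem_support, ex_mem f h] at hz
    exact hz
  · exact absurd (ex_notMem f h) hz

lemma isCompact_img (f : C_c(↥U, ℝ)) : IsCompact (Subtype.val '' tsupport f) :=
  f.hasCompactSupport.isCompact.image continuous_subtype_val

lemma tsupport_ex (f : C_c(↥U, ℝ)) : tsupport (ex f) ⊆ U := by
  refine (closure_minimal (support_ex f) (isCompact_img f).isClosed).trans ?_
  rintro _ ⟨z, _, rfl⟩
  exact z.2

lemma hasCompactSupport_ex (f : C_c(↥U, ℝ)) : HasCompactSupport (ex f) :=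
  HasCompactSupport.of_support_subset_isCompact (isCompact_img f) (support_ex f)

end ext

lemma cd2 {g : ℂ → ℝ} (hg : ContDiff ℝ ∞ g) : ContDiff ℝ 2 g := by
  have := contDiff_infty.1 hg 2
  exact_mod_cast this

/-- Riesz representation of a positive distribution `Δχ` -/
theorem exists_ddc {U : Set ℂ} (hU : IsOpen U) {χ : ℂ → ℝ} (hχ : LocallyIntegrableOn χ U)
    (hpos : ∀ φ : ℂ → ℝ, ContDiff ℝ ∞ φ → HasCompactSupport φ → tsupport φ ⊆ U → (∀ z, 0 ≤ φ z) →
      0 ≤ ∫ z, χ z * Δ φ z) : ∃ T : Measure ℂ, IsDDc U χ T := by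
  have hint : ∀ φ : ℂ → ℝ, ContDiff ℝ ∞ φ → HasCompactSupport φ → tsupport φ ⊆ U →
      Integrable fun z => χ z * Δ φ z := by
    intro φ hφ hc hs
    have h1 : IntegrableOn χ (tsupport φ) :=
      hχ.integrableOn_compact_subset hs hc.isCompact
    have hcont := continuous_laplacian (cd2 hφ)
    have h2 : IntegrableOn (fun z => χ z * Δ φ z) (tsupport φ) := by
      have := IntegrableOn.continuousOn_mul hcont.continuousOn h1 hc.isCompact
      refine this.congr_fun (fun z _ => ?_) (isClosed_tsupport φ).measurableSet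
      simp only [mul_comm]
    rw [← integrableOn_univ]
    refine (integrableOn_iff_integrable_of_support_subset ?_).mp h2 |>.integrableOn
    intro z hz
    by_contra h
    apply hz
    simp only [laplacian_zero_of_notMem (cd2 hφ) h, mul_zero]
  let D : Submodule ℝ (C_c(↥U, ℝ)) :=
    { carrier := {f | ContDiff ℝ ∞ (ex f)}
      add_mem' := by
        intro f g hf hg
        change ContDiff ℝ ∞ (ex (f + g))
        rw [ex_add]
        exact ContDiff.add hf hg
      zero_mem' := by
        change ContDiff ℝ ∞ (ex 0)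
        rw [ex_zero]
        exact contDiff_const
      smul_mem' := by
        intro c f hf
        change ContDiff ℝ ∞ (ex (c • f))
        rw [ex_smul]
        exact ContDiff.const_smul c hf }
  have hlapadd : ∀ f g : ℂ → ℝ, ContDiff ℝ ∞ f → ContDiff ℝ ∞ g → Δ (f + g) = Δ f + Δ g := by
    intro f g hf hg
    funext z
    exact (cd2 hf).contDiffAt.laplacian_add (cd2 hg).contDiffAt
  let L : D →ₗ[ℝ] ℝ :=
    { toFun := fun f => (1 / (2 * Real.pi)) * ∫ z, χ z * Δ (ex f.1) z
      map_add' := by
        intro f g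
        rw [← mul_add, ← integral_add (hint _ f.2 (hasCompactSupport_ex _) (tsupport_ex _))
          (hint _ g.2 (hasCompactSupport_ex _) (tsupport_ex _))]
        congr 1
        refine integral_congr_ae (Eventually.of_forall fun z => ?_)
        have : ex (f + g).1 = ex f.1 + ex g.1 := ex_add _ _
        simp only
        rw [this, hlapadd _ _ f.2 g.2, Pi.add_apply]
        ring
      map_smul' := by
        intro c f
        have hh : ∫ z, χ z * Δ (ex (c • f).1) z = c * ∫ z, χ z * Δ (ex f.1) z := by
          rw [← integral_const_mul]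
          refine integral_congr_ae (Eventually.of_forall fun z => ?_)
          have : ex (c • f).1 = c • ex f.1 := ex_smul _ _
          simp only
          rw [this, InnerProductSpace.laplacian_smul c (cd2 f.2).contDiffAt, smul_eq_mul]
          ring
        rw [hh, RingHom.id_apply, smul_eq_mul]
        ring }
  let s : PointedCone ℝ (C_c(↥U, ℝ)) :=
    { carrier := {f | ∀ x, 0 ≤ f x}
      add_mem' := by
        intro f g hf hg x
        exact add_nonneg (hf x) (hg x)
      zero_mem' := by intro x; simp
      smul_mem' := by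
        intro c f hf x
        exact mul_nonneg c.2 (hf x) }
  obtain ⟨g, hg1, hg2⟩ := riesz_extension s ⟨D, L⟩ (by
      intro x hx
      refine mul_nonneg (by positivity) ?_
      apply hpos _ x.2 (hasCompactSupport_ex _) (tsupport_ex _)
      intro z
      by_cases h : z ∈ U
      · rw [ex_mem _ h]; exact hx _
      · rw [ex_notMem _ h]) (by
      intro y
      obtain ⟨V, hVo, hKV, hVU, hVc⟩ := exists_open_between_and_isCompact_closure (isCompact_img y) hU
        (by rintro _ ⟨z, _, rfl⟩; exact z.2)
      obtain ⟨ψ, hψ, hsupp, hψ0, hψ1, hψK⟩ := exists_bump (isCompact_img y) hVo hKV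
      obtain ⟨c, hc⟩ := y.hasCompactSupport.isCompact.exists_bound_of_continuousOn
        (y.continuous.continuousOn (s := tsupport y))
      have hts : tsupport ψ = closure V := by rw [tsupport, hsupp]
      have hcs : HasCompactSupport (fun z : ↥U => |c| * ψ z) := by
        have h1 : IsCompact ((Subtype.val : ↥U → ℂ) ⁻¹' closure V) := by
          have h2 : Topology.IsInducing (Subtype.val : ↥U → ℂ) := Topology.IsInducing.subtypeVal
          rw [h2.isCompact_preimage_iff (by rw [Subtype.range_coe]; exact hVU)]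
          exact hVc
        refine HasCompactSupport.of_support_subset_isCompact h1 ?_
        intro z hz
        have : ψ z ≠ 0 := fun h => hz (by simp [h])
        have h3 : (z : ℂ) ∈ V := by rw [← hsupp]; exact this
        exact subset_closure h3
      let x : C_c(↥U, ℝ) := ⟨⟨fun z => |c| * ψ z, by
        exact continuous_const.mul (hψ.continuous.comp continuous_subtype_val)⟩, hcs⟩
      have hxe : ex x = fun z => |c| * ψ z := by
        funext z
        by_cases h : z ∈ U
        · rw [ex_mem _ h]; rfl
        · rw [ex_notMem _ h]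
          have : ψ z = 0 := by
            by_contra h'
            have : z ∈ Function.support ψ := h'
            rw [hsupp] at this
            exact h (hVU (subset_closure this))
          rw [this, mul_zero]
      refine ⟨⟨x, ?_⟩, ?_⟩
      · change ContDiff ℝ ∞ (ex x)
        rw [hxe]
        exact contDiff_const.mul hψ
      · intro z
        change 0 ≤ |c| * ψ z + y z
        by_cases hz : z ∈ tsupport y
        · have h1 := hψK z ⟨z, hz, rfl⟩
          have h2 := hc z hz
          rw [h1, mul_one]
          have h3 : -c ≤ y z := (abs_le.mp h2).1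
          have h4 : c ≤ |c| := le_abs_self c
          linarith
        · have h1 : y z = 0 := image_eq_zero_of_notMem_tsupport hz
          rw [h1, add_zero]
          exact mul_nonneg (abs_nonneg _) (hψ0 _))
  have : LocallyCompactSpace ↥U := hU.locallyCompactSpace
  let P : C_c(↥U, ℝ) →ₚ[ℝ] ℝ := PositiveLinearMap.mk₀ g (by
    intro f hf
    exact hg2 f (fun x => hf x))
  let T0 : Measure ↥U := RealRMK.rieszMeasure P
  refine ⟨T0.map Subtype.val, hχ, ?_, ?_⟩
  · intro K hK hKc
    rw [Measure.map_apply measurable_subtype_coe hKc.measurableSet]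
    have h2 : Topology.IsInducing (Subtype.val : ↥U → ℂ) := Topology.IsInducing.subtypeVal
    have h3 : IsCompact ((Subtype.val : ↥U → ℂ) ⁻¹' K) := by
      rw [h2.isCompact_preimage_iff (by rw [Subtype.range_coe]; exact hK)]
      exact hKc
    exact h3.measure_lt_top
  · intro φ hφ hc hs
    have hme : MeasurableEmbedding (Subtype.val : ↥U → ℂ) :=
      MeasurableEmbedding.subtype_coe hU.measurableSet
    rw [hme.integral_map]
    have hcs : HasCompactSupport (fun z : ↥U => φ z) := by
      have h1 : IsCompact ((Subtype.val : ↥U → ℂ) ⁻¹' tsupport φ) := by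
        have h2 : Topology.IsInducing (Subtype.val : ↥U → ℂ) := Topology.IsInducing.subtypeVal
        rw [h2.isCompact_preimage_iff (by rw [Subtype.range_coe]; exact hs)]
        exact hc.isCompact
      refine HasCompactSupport.of_support_subset_isCompact h1 ?_
      intro z hz
      exact subset_tsupport _ hz
    let x : C_c(↥U, ℝ) := ⟨⟨fun z => φ z, hφ.continuous.comp continuous_subtype_val⟩, hcs⟩
    have hxe : ex x = φ := by
      funext z
      by_cases h : z ∈ U
      · rw [ex_mem _ h]; rfl
      · rw [ex_notMem _ h]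
        exact (image_eq_zero_of_notMem_tsupport (fun h' => h (hs h'))).symm
    have hxD : x ∈ D := by
      change ContDiff ℝ ∞ (ex x)
      rw [hxe]; exact hφ
    have h1 : ∫ z : ↥U, φ z ∂T0 = P x := RealRMK.integral_rieszMeasure P x
    rw [h1]
    have h2 : P x = g x := rfl
    have h3 : g x = L ⟨x, hxD⟩ := hg1 ⟨x, hxD⟩
    rw [h2, h3]
    change (1 / (2 * Real.pi)) * ∫ z, χ z * Δ (ex x) z = _
    rw [hxe]

end Pool.Agent.R235.BD
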